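import Pool.Agent.Q74.BT.Stm7
import Pool.Agent.Q151.BT.LipF
import Pool.Agent.Q182.BT.FamM
import Pool.Agent.Q14.BT.NetLaw
import Pool.Agent.Q195.BT.ErfL

/-!
# Project BT, part 7, tools for job CovL: functions of the coincidences
-/

set_option autoImplicit false
set_option linter.unusedVariables false

namespace Pool.Agent.Q137.BT

open Finset
open Pool.Agent.Q158.Pair (T)
open Pool.Agent.Q74.AR (oc oc_per bE bE_mono bE_const lim lim_erf)
open Pool.Agent.Q74.KP (EE Lv yy EE_add EE_mul EE_sub EE_sum EE_mono EE_const EE_nonneg oc_add Erf pq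
  pq_close pq_le_one pq_nonneg)
open Pool.Agent.Q74.SF
open Pool.Agent.Q74.BT
open Pool.Agent.Q14.BT (can can_val can_eq can_iff can_congr can_can hfix)
open Pool.Agent.Q151.BT (unit_steps)
open Pool.Agent.Q182.BT.FamM (coll)
open scoped Classical

/-- functions of the coincidences -/
def PatF {k : ℕ} (Φ : (Fin k → ℤ) → ℝ) : Prop :=
  ∀ v w : Fin k → ℤ, (∀ i i', v i = v i' ↔ w i = w i') → Φ v = Φ w

/-- the value at a pattern -/
noncomputable def wF {k : ℕ} (Φ : (Fin k → ℤ) → ℝ) (π : Fin k → Fin k) : ℝ :=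
  if can π = π then Φ (fun i => ((π i : ℕ) : ℤ)) else 0

theorem wF_le {k : ℕ} {Φ : (Fin k → ℤ) → ℝ} (h : ∀ z, |Φ z| ≤ 1) (π : Fin k → Fin k) : |wF Φ π| ≤ 1 := by
  unfold wF
  split_ifs
  · exact h _
  · rw [abs_zero]; exact zero_le_one

theorem wF_sum {k : ℕ} {Φ : (Fin k → ℤ) → ℝ} (hΦ : PatF Φ) {α : Type} (v : Fin k → α) (z : Fin k → ℤ)
    (h : ∀ i i', z i = z i' ↔ v i = v i') : Φ z = ∑ π : Fin k → Fin k, wF Φ π * pat π v := by
  rw [sum_eq_single (can v)]
  · unfold wF
    rw [if_pos (can_can v)]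
    have h1 : pat (can v) v = 1 := by
      unfold pat
      rw [if_pos]
      intro i j
      exact (can_iff v i j).symm
    rw [h1, mul_one]
    apply hΦ
    intro i i'
    rw [h i i', ← can_iff v i i']
    constructor
    · intro h2
      rw [h2]
    · intro h2
      exact Fin.ext (by exact_mod_cast h2)
  · intro π _ hπ
    unfold wF
    split_ifs with h2
    · have h1 : pat π v = 0 := by
        unfold pat
        rw [if_neg]
        intro hc
        refine hπ ?_
        rw [← h2]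
        exact (can_congr v π hc).symm
      rw [h1, mul_zero]
    · rw [zero_mul]
  · intro h2
    exact absurd (mem_univ _) h2

theorem CG_pat {k : ℕ} {Φ : (Fin k → ℤ) → ℝ} (hΦ : PatF Φ) (t : ℕ) (a : Fin k → ℤ) :
    CG Φ t a = ∑ π : Fin k → Fin k, wF Φ π * CG (fun z => pat π z * 1) t a := by
  have h1 : Φ = fun z => ∑ π : Fin k → Fin k, wF Φ π * (pat π z * 1) := by
    funext z
    rw [wF_sum hΦ z z fun _ _ => Iff.rfl]
    refine sum_congr rfl fun π _ => ?_
    rw [mul_one]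
  conv_lhs => rw [h1]
  rw [CG_sum]
  refine sum_congr rfl fun π _ => ?_
  rw [CG_mul]

/-- the law of the coincidences of the levels -/
theorem pat_law (k : ℕ) (ε : ℝ) (hε : 0 < ε) : ∃ ρ : ℝ, 0 < ρ ∧ ∃ t₀ : ℕ, ∀ r : ℕ, t₀ ≤ r →
    ∀ (a : Fin k → ℕ) (b : Fin k → ℤ), Off ρ r a b → ∀ Φ : (Fin k → ℤ) → ℝ, (∀ z, |Φ z| ≤ 1) → PatF Φ →
    |EE r (fun n => Φ (Lv a b r n)) - CG Φ r (fun i => (a i : ℤ))| ≤ ε := by
  set N : ℝ := (Fintype.card (Fin k → Fin k) : ℝ) with hN
  have hN0 : 0 ≤ N := Nat.cast_nonneg _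
  obtain ⟨ρ₁, hρ₁, t₁, h₁⟩ := hfix k 0 (ε / (2 * (N + 1))) le_rfl (by positivity)
  obtain ⟨ρ₂, hρ₂, t₂, h₂⟩ := coll k (ε / 4) (by positivity)
  refine ⟨min ρ₁ ρ₂, lt_min hρ₁ hρ₂, max t₁ (max t₂ 1), fun r hr a b hoff Φ hΦ1 hΦ => ?_⟩
  have hr1 : t₁ ≤ r := (le_max_left _ _).trans hr
  have hr2 : t₂ ≤ r := ((le_max_left _ _).trans (le_max_right _ _)).trans hr
  have hr3 : 1 ≤ r := ((le_max_right _ _).trans (le_max_right _ _)).trans hr
  have hoff' : ∀ ρ : ℝ, min ρ₁ ρ₂ ≤ ρ → Off ρ r a b := by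
    intro ρ hρ
    refine ⟨fun i j => (hoff.1 i j).trans (mul_le_mul_of_nonneg_right hρ (Nat.cast_nonneg r)),
      fun i j hij => (hoff.2 i j hij).trans ?_⟩
    refine mul_le_mul_of_nonneg_left (Real.exp_le_exp.2 ?_) (by positivity)
    exact mul_le_mul_of_nonneg_right hρ (Nat.cast_nonneg r)
  have hfx := h₁ r hr1 a b (hoff' ρ₁ (min_le_left _ _))
  have hcl := h₂ r hr2 a b (hoff' ρ₂ (min_le_right _ _))
  set Ψ : ℤ → ℝ := fun n => ∑ π : Fin k → Fin k, wF Φ π * (pat π (Vv a b r n) * 1) with hΨ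
  -- `Ψ` is bounded
  have hΨv : ∀ n, ∃ z, (∀ i i', z i = z i' ↔ Vv a b r n i = Vv a b r n i') ∧ Ψ n = Φ z := by
    intro n
    refine ⟨fun i => ((can (Vv a b r n) i : ℕ) : ℤ), fun i i' => ?_, ?_⟩
    · rw [← can_iff (Vv a b r n) i i']
      show ((can (Vv a b r n) i : ℕ) : ℤ) = ((can (Vv a b r n) i' : ℕ) : ℤ) ↔ _
      constructor
      · intro h2
        exact Fin.ext (by exact_mod_cast h2)
      · intro h2
        rw [h2]
    · rw [hΨ]
      simp only [mul_one]
      symm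
      apply wF_sum hΦ
      intro i i'
      rw [← can_iff (Vv a b r n) i i']
      constructor
      · intro h2
        exact Fin.ext (by exact_mod_cast h2)
      · intro h2
        rw [h2]
  have h3 : |EE r Ψ - CG Φ r (fun i => (a i : ℤ))| ≤ ε / 2 := by
    rw [CG_pat hΦ]
    have e1 : EE r Ψ = ∑ π : Fin k → Fin k, wF Φ π * EE r (fun n => pat π (Vv a b r n) * 1) := by
      rw [hΨ, EE_sum]
      refine sum_congr rfl fun π _ => ?_
      rw [EE_mul]
    rw [e1, ← sum_sub_distrib]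
    have e2 : ∀ π ∈ (univ : Finset (Fin k → Fin k)),
        |wF Φ π * EE r (fun n => pat π (Vv a b r n) * 1) -
          wF Φ π * CG (fun z => pat π z * 1) r (fun i => (a i : ℤ))| ≤ ε / (2 * (N + 1)) := by
      intro π _
      rw [← mul_sub, abs_mul]
      have e3 := hfx π (fun _ => 1) (fun _ => by simp) (fun z w => by simp)
      calc _ ≤ 1 * (ε / (2 * (N + 1))) := mul_le_mul (wF_le hΦ1 π) e3 (abs_nonneg _) zero_le_one
        _ = _ := one_mul _
    refine (abs_sum_le_sum_abs _ _).trans ((sum_le_sum e2).trans ?_)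
    rw [sum_const, card_univ, nsmul_eq_mul, ← hN]
    rw [mul_div_assoc', div_le_div_iff₀ (by positivity) (by norm_num)]
    nlinarith
  have h4 : |EE r (fun n => Φ (Lv a b r n)) - EE r Ψ| ≤ ε / 2 := by
    rw [← EE_sub]
    have e1 : ∀ n : ℤ, |Φ (Lv a b r n) - Ψ n| ≤
        2 * (if ∃ i j, Lv a b r n i = Lv a b r n j ∧ Vv a b r n i ≠ Vv a b r n j then (1 : ℝ) else 0) := by
      intro n
      obtain ⟨z, hz1, hz2⟩ := hΨv n
      split_ifs with h
      · rw [hz2]
        have := abs_sub (Φ (Lv a b r n)) (Φ z)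
        have g1 := hΦ1 (Lv a b r n)
        have g2 := hΦ1 z
        linarith
      · have : Φ (Lv a b r n) = Ψ n := by
          rw [hz2]
          apply hΦ
          intro i i'
          rw [hz1 i i']
          constructor
          · intro h5
            by_contra h6
            exact h ⟨i, i', h5, h6⟩
          · intro h5
            exact congrArg Prod.fst h5
        rw [this, sub_self, abs_zero, mul_zero]
    have e2 : ∀ n : ℤ, Φ (Lv a b r n) - Ψ n ≤
        2 * (if ∃ i j, Lv a b r n i = Lv a b r n j ∧ Vv a b r n i ≠ Vv a b r n j then (1 : ℝ) else 0) :=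
      fun n => (le_abs_self _).trans (e1 n)
    have e3 : ∀ n : ℤ, -(2 : ℝ) * (if ∃ i j, Lv a b r n i = Lv a b r n j ∧ Vv a b r n i ≠ Vv a b r n j
        then (1 : ℝ) else 0) ≤ Φ (Lv a b r n) - Ψ n := by
      intro n
      have := (abs_le.1 (e1 n)).1
      linarith
    have g1 := EE_mono r e2
    have g2 := EE_mono r e3
    rw [EE_mul] at g1 g2
    rw [abs_le]
    constructor
    · linarith
    · linarith
  have h5 := abs_sub_le (EE r (fun n => Φ (Lv a b r n))) (EE r Ψ) (CG Φ r (fun i => (a i : ℤ)))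
  linarith

/-- bounded functions of the places forget small changes of the start -/
theorem lip_all (k : ℕ) : ∃ C : ℝ, 0 < C ∧ ∀ Φ : (Fin k → ℤ) → ℝ, (∀ z, |Φ z| ≤ 1) → ∀ (r : ℕ)
    (a b : Fin k → ℤ), |CG Φ r a - CG Φ r b| ≤ C / √((r : ℝ) + 1) * ∑ i, |(a i : ℝ) - b i| := by
  obtain ⟨C, hC, hL⟩ := (Pool.Agent.Q6.SF.lip Pool.Agent.Q176.SF.Expand.expand Pool.Agent.Q177.SF.comp
    Pool.Agent.Q210.SF.cinj Pool.Agent.Q177.SF.cmono) k
  refine ⟨((univ : Finset (Fin k → Fin k)).card : ℝ) * C + 1, by positivity, fun Φ hΦ r a b => ?_⟩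
  have hdec : ∀ c : Fin k → ℤ, CG Φ r c =
      ∑ π : Fin k → Fin k, (if can π = π then 1 else 0) * CG (fun z => pat π z * Φ z) r c := by
    intro c
    have e1 : Φ = fun z => ∑ π : Fin k → Fin k, (if can π = π then 1 else 0) * (pat π z * Φ z) := by
      funext z
      rw [sum_eq_single (can z)]
      · have h1 : pat (can z) z = 1 := by
          unfold pat
          rw [if_pos]
          intro i j
          exact (can_iff z i j).symm
        rw [if_pos (can_can z), h1, one_mul, one_mul]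
      · intro π _ hπ
        by_cases hc : can π = π
        · have h1 : pat π z = 0 := by
            unfold pat
            rw [if_neg]
            intro hh
            refine hπ ?_
            rw [← hc]
            exact (can_congr z π hh).symm
          rw [h1]
          ring
        · rw [if_neg hc, zero_mul]
      · intro hh
        exact absurd (mem_univ _) hh
    have e2 := CG_sum (k := k) (univ : Finset (Fin k → Fin k))
      (fun π z => (if can π = π then 1 else 0) * (pat π z * Φ z)) r c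
    conv_lhs => rw [e1]
    rw [e2]
    refine sum_congr rfl fun π _ => ?_
    exact CG_mul _ _ _ _
  have hr : 0 < √((r : ℝ) + 1) := by positivity
  have hstep : ∀ (c : Fin k → ℤ) (i : Fin k), |CG Φ r (c + Pi.single i 1) - CG Φ r c| ≤
        (((univ : Finset (Fin k → Fin k)).card : ℝ) * C + 1) / √((r : ℝ) + 1) := by
    intro c i
    rw [hdec, hdec, ← sum_sub_distrib]
    have h1 : |∑ π : Fin k → Fin k, ((if can π = π then (1 : ℝ) else 0) *
        CG (fun z => pat π z * Φ z) r (c + Pi.single i 1) - (if can π = π then 1 else 0) *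
        CG (fun z => pat π z * Φ z) r c)| ≤ ∑ _π : Fin k → Fin k, C / √((r : ℝ) + 1) := by
      refine (abs_sum_le_sum_abs _ _).trans (sum_le_sum fun π _ => ?_)
      rw [← mul_sub, abs_mul]
      have h2 := hL π Φ hΦ r c i
      have h3 : |(if can π = π then (1 : ℝ) else 0)| ≤ 1 := by
        split_ifs <;> norm_num
      calc |(if can π = π then (1 : ℝ) else 0)| * |CG (fun z => pat π z * Φ z) r (c + Pi.single i 1) -
          CG (fun z => pat π z * Φ z) r c| ≤ 1 * (C / √((r : ℝ) + 1)) :=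
            mul_le_mul h3 h2 (abs_nonneg _) zero_le_one
        _ = _ := one_mul _
    refine h1.trans ?_
    rw [sum_const, nsmul_eq_mul, mul_div_assoc']
    refine div_le_div_of_nonneg_right ?_ hr.le
    linarith
  have h5 := unit_steps _ _ hstep (∑ i, (a i - b i).natAbs) a b rfl
  refine h5.trans (le_of_eq ?_)
  congr 1
  push_cast
  refine sum_congr rfl fun i _ => ?_
  have : ((a i : ℝ) - b i) = ((a i - b i : ℤ) : ℝ) := by push_cast; ring
  rw [this, Nat.cast_natAbs, Int.cast_abs]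

/-- far walkers rarely meet -/
theorem pq_far (ε : ℝ) (hε : 0 < ε) : ∃ D : ℝ, 0 < D ∧ ∃ t₀ : ℕ, ∀ r t : ℕ, t₀ ≤ r → r ≤ t → ∀ g : ℤ,
    D * √t ≤ g → 1 - pq r g ≤ ε := by
  obtain ⟨r₀, hr₀⟩ := pq_close (show 0 < ε / 2 by positivity)
  have h1 := Pool.Agent.Q195.BT.Erf_tendsto.eventually (lt_mem_nhds (show 1 - ε / 2 < 1 by linarith))
  obtain ⟨D₀, hD₀⟩ := Filter.eventually_atTop.1 h1
  refine ⟨max D₀ 1, lt_of_lt_of_le one_pos (le_max_right _ _), max r₀ 1, fun r t hr hrt g hg => ?_⟩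
  have hr1 : r₀ ≤ r := (le_max_left _ _).trans hr
  have hr2 : 1 ≤ r := (le_max_right _ _).trans hr
  have hr0 : (0 : ℝ) < r := by exact_mod_cast hr2
  have hsr : 0 < √(r : ℝ) := Real.sqrt_pos.2 hr0
  have hst : √(r : ℝ) ≤ √(t : ℝ) := Real.sqrt_le_sqrt (by exact_mod_cast hrt)
  have hg0 : (0 : ℝ) ≤ g := le_trans (by positivity) hg
  have hgz : 0 ≤ g := by exact_mod_cast hg0
  have h2 := hr₀ r hr1 g
  have hle : lim r g.natAbs = Erf ((g.natAbs : ℝ) / √(r : ℝ)) := lim_erf r _
  rw [hle] at h2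
  have h3 : ((g.natAbs : ℕ) : ℝ) = g := by
    rw [Nat.cast_natAbs, abs_of_nonneg hgz]
  rw [h3] at h2
  have h4 : D₀ ≤ g / √r := by
    rw [le_div_iff₀ hsr]
    rcases le_total D₀ 0 with h5 | h5
    · exact le_trans (mul_nonpos_of_nonpos_of_nonneg h5 hsr.le) hg0
    · calc D₀ * √r ≤ D₀ * √t := mul_le_mul_of_nonneg_left hst h5
        _ ≤ max D₀ 1 * √t := mul_le_mul_of_nonneg_right (le_max_left _ _) (Real.sqrt_nonneg _)
        _ ≤ g := hg
  have h5 := hD₀ _ h4
  have h7 := (abs_le.1 h2).1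
  linarith

end Pool.Agent.Q137.BT
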