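import Pool.Agent.Q74.BT.Stm7
import Pool.Agent.Q92.BT.CwMean

/-! # Project BT, JOB CwFar: two far groups of coalescing walkers are almost independent -/

set_option autoImplicit false

namespace Pool.Agent.Q137.BT

open Finset
open Pool.Agent.Q74.KP
open Pool.Agent.Q74.SF
open Pool.Agent.Q177.SF (sum_inter comp)
open Pool.Agent.Q92.BT (CG_pair)

theorem prodsum (V W : Finset ℤ) : Disjoint V W → ∀ f g : Finset ℤ → ℝ,
    ∑ B ∈ (V ∪ W).powerset, f (B ∩ V) * g (B ∩ W) =
      (∑ B ∈ V.powerset, f B) * ∑ C ∈ W.powerset, g C := by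
  induction W using Finset.induction_on with
  | empty =>
    intro _ f g
    rw [union_empty, powerset_empty, sum_singleton, sum_mul]
    refine sum_congr rfl fun B hB => ?_
    rw [inter_eq_left.2 (mem_powerset.1 hB), inter_empty]
  | insert x W hx ih =>
    intro h f g
    rw [disjoint_insert_right] at h
    have hx' : x ∉ V ∪ W := by
      rw [mem_union]
      rintro (h1 | h1)
      · exact h.1 h1
      · exact hx h1
    have e1 : V ∪ insert x W = insert x (V ∪ W) := by rw [union_insert]
    have e2 : ∀ B ∈ (V ∪ W).powerset, f (insert x B ∩ V) * g (insert x B ∩ insert x W) =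
        f (B ∩ V) * g (insert x (B ∩ W)) := by
      intro B _
      rw [insert_inter_of_notMem h.1, ← insert_inter_distrib]
    have e3 : ∀ B ∈ (V ∪ W).powerset, f (B ∩ V) * g (B ∩ insert x W) =
        f (B ∩ V) * g (B ∩ W) := by
      intro B hB
      have hxB : x ∉ B := fun h2 => hx' (mem_powerset.1 hB h2)
      congr 2
      ext y
      rw [mem_inter, mem_inter, mem_insert]
      constructor
      · rintro ⟨h3, h4 | h4⟩
        · exact absurd (h4 ▸ h3) hxB
        · exact ⟨h3, h4⟩
      · rintro ⟨h3, h4⟩
        exact ⟨h3, Or.inr h4⟩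
    rw [e1, sum_powerset_insert hx', sum_congr rfl e2, sum_congr rfl e3, ← sum_add_distrib,
      sum_powerset_insert hx, ← sum_add_distrib]
    have h5 := ih h.2 f (fun C => g C + g (insert x C))
    rw [← h5]
    exact sum_congr rfl fun B _ => by ring

/-- the averages over the subsets of two disjoint subsets are independent -/
theorem prodavg (U V W : Finset ℤ) (h : Disjoint V W) (hV : V ⊆ U) (hW : W ⊆ U)
    (f g : Finset ℤ → ℝ) :
    (∑ B ∈ U.powerset, f (B ∩ V) * g (B ∩ W)) / 2 ^ U.card =
      (∑ B ∈ V.powerset, f B) / 2 ^ V.card * ((∑ C ∈ W.powerset, g C) / 2 ^ W.card) := by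
  have h1 := sum_inter (V ∪ W) (U \ (V ∪ W)) disjoint_sdiff
    (fun B => f (B ∩ V) * g (B ∩ W))
  rw [union_sdiff_of_subset (union_subset hV hW)] at h1
  have e1 : ∀ B ∈ U.powerset, f (B ∩ (V ∪ W) ∩ V) * g (B ∩ (V ∪ W) ∩ W) =
      f (B ∩ V) * g (B ∩ W) := by
    intro B _
    rw [inter_assoc, inter_assoc, inter_eq_right.2 subset_union_left,
      inter_eq_right.2 subset_union_right]
  rw [sum_congr rfl e1] at h1
  rw [h1, prodsum V W h, card_union_of_disjoint h, pow_add, mul_div_mul_comm]

theorem cwFar : Pool.Agent.Q74.BT.S_CwFar := by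
  intro k m m' e e' F F' hF hF' t a _
  obtain ⟨H, hH⟩ : ∃ H : (Fin k → ℤ) → ℝ, H = fun z => ∑ i, ∑ i',
      (1 - if z (e' i') ≠ z (e i) then (1 : ℝ) else 0) := ⟨_, rfl⟩
  have hnn : ∀ (z : Fin k → ℤ) (i : Fin m) (i' : Fin m'),
      (0 : ℝ) ≤ 1 - if z (e' i') ≠ z (e i) then (1 : ℝ) else 0 := by
    intro z i i'
    split_ifs <;> norm_num
  have hval : ∀ t a, CG H t a = ∑ i, ∑ i', (1 - pq t (a (e' i') - a (e i))) := by
    intro t a
    rw [hH, CG_sum]
    refine sum_congr rfl fun i _ => ?_
    rw [CG_sum]
    refine sum_congr rfl fun i' _ => ?_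
    rw [CG_sub (fun _ => (1 : ℝ)), CG_const, CG_pair]
  rw [← hval]
  -- the general inequality
  have key : ∀ t a, |CG (fun z => F (z ∘ e) * F' (z ∘ e')) t a -
      CG F t (a ∘ e) * CG F' t (a ∘ e')| ≤ 2 * CG H t a := by
    intro t
    induction t with
    | zero =>
      intro a
      rw [CG_zero, CG_zero, CG_zero, CG_zero, sub_self, abs_zero, hH]
      exact mul_nonneg (by norm_num) (sum_nonneg fun i _ => sum_nonneg fun i' _ => hnn a i i')
    | succ t ih =>
      intro a
      by_cases hd : Disjoint (univ.image (a ∘ e)) (univ.image (a ∘ e'))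
      · have hV : univ.image (a ∘ e) ⊆ univ.image a := by
          intro x hx
          rw [mem_image] at hx
          obtain ⟨i, _, rfl⟩ := hx
          exact mem_image_of_mem _ (mem_univ _)
        have hW : univ.image (a ∘ e') ⊆ univ.image a := by
          intro x hx
          rw [mem_image] at hx
          obtain ⟨i, _, rfl⟩ := hx
          exact mem_image_of_mem _ (mem_univ _)
        have h1 := prodavg (univ.image a) (univ.image (a ∘ e)) (univ.image (a ∘ e')) hd hV hW
          (fun B => CG F t (fun i => (a ∘ e) i + if (a ∘ e) i ∈ B then 1 else 0))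
          (fun B => CG F' t (fun i => (a ∘ e') i + if (a ∘ e') i ∈ B then 1 else 0))
        rw [← CG_succ, ← CG_succ] at h1
        rw [← h1, CG_succ, CG_succ, ← sub_div, ← sum_sub_distrib, abs_div,
          abs_of_pos (show (0 : ℝ) < 2 ^ (univ.image a).card by positivity), mul_div_assoc']
        refine div_le_div_of_nonneg_right ?_ (by positivity)
        rw [mul_sum]
        refine (abs_sum_le_sum_abs _ _).trans (sum_le_sum fun B _ => ?_)
        refine le_trans (le_of_eq ?_) (ih (fun i => a i + if a i ∈ B then 1 else 0))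
        congr 3
        · congr 1
          funext i
          have h2 : a (e i) ∈ univ.image (a ∘ e) := mem_image_of_mem (a ∘ e) (mem_univ i)
          simp only [Function.comp_apply, mem_inter, h2, and_true]
        · congr 1
          funext i
          have h2 : a (e' i) ∈ univ.image (a ∘ e') := mem_image_of_mem (a ∘ e') (mem_univ i)
          simp only [Function.comp_apply, mem_inter, h2, and_true]
      · rw [Finset.not_disjoint_iff] at hd
        obtain ⟨x, hx, hx'⟩ := hd
        rw [mem_image] at hx hx'
        obtain ⟨i, _, hi⟩ := hx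
        obtain ⟨i', _, hi'⟩ := hx'
        have heq : a (e' i') - a (e i) = 0 := by
          rw [Function.comp_apply] at hi hi'
          rw [hi, hi', sub_self]
        have h1 : 1 ≤ CG H (t + 1) a := by
          rw [hval]
          have h2 : ∀ j ∈ (univ : Finset (Fin m)), 0 ≤ ∑ j', (1 - pq (t + 1) (a (e' j') - a (e j))) :=
            fun j _ => sum_nonneg fun j' _ => by
              have := pq_le_one (t + 1) (a (e' j') - a (e j))
              linarith
          refine le_trans ?_ (single_le_sum h2 (mem_univ i))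
          have h3 : ∀ j' ∈ (univ : Finset (Fin m')), 0 ≤ (1 - pq (t + 1) (a (e' j') - a (e i))) :=
            fun j' _ => by
              have := pq_le_one (t + 1) (a (e' j') - a (e i))
              linarith
          refine le_trans ?_ (single_le_sum h3 (mem_univ i'))
          rw [heq, pq_zero, sub_zero]
        have h4 : |CG (fun z => F (z ∘ e) * F' (z ∘ e')) (t + 1) a| ≤ 1 := by
          refine CG_abs (fun z => ?_) _ _
          rw [abs_mul]
          have := mul_le_mul (hF (z ∘ e)) (hF' (z ∘ e')) (abs_nonneg _) zero_le_one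
          linarith
        have h5 : |CG F (t + 1) (a ∘ e) * CG F' (t + 1) (a ∘ e')| ≤ 1 := by
          rw [abs_mul]
          have := mul_le_mul (CG_abs hF (t + 1) (a ∘ e)) (CG_abs hF' (t + 1) (a ∘ e'))
            (abs_nonneg _) zero_le_one
          linarith
        have h6 := abs_sub (CG (fun z => F (z ∘ e) * F' (z ∘ e')) (t + 1) a)
          (CG F (t + 1) (a ∘ e) * CG F' (t + 1) (a ∘ e'))
        linarith
  rw [comp, comp]
  exact key t a

end Pool.Agent.Q137.BT
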