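import Pool.Agent.Q137.BT.CovA
import Pool.Agent.Q137.BT.CwFar
import Pool.Agent.Q190.BT.Many
import Pool.Agent.Q14.BT.Net
import Pool.Agent.Q195.BT.Up

/-!
# Project BT, part 7, tools for job CovL: the law of the coincidences of a family of trajectories
-/

set_option autoImplicit false
set_option linter.unusedVariables false

namespace Pool.Agent.Q137.BT

open Finset
open Pool.Agent.Q158.Pair (T)
open Pool.Agent.Q74.AR (oc oc_per bE bE_mono bE_const)
open Pool.Agent.Q74.KP (EE Lv yy EE_add EE_mul EE_sub EE_sum EE_mono EE_const EE_nonneg oc_add Erf pq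
  pq_le_one)
open Pool.Agent.Q74.BL (EE_split T_add)
open Pool.Agent.Q74.SF
open Pool.Agent.Q74.BT
open Pool.Agent.Q14.BT (extend ev)
open Pool.Agent.Q38.BT (wv wv_step)
open Pool.Agent.Q195.BT (ind_nonneg ind_one ind_zero)
open scoped Classical

/-- growth of the offsets -/
theorem wv_growth (x y : ℤ) (k : ℕ) : ∀ m : ℕ, |wv x y (k + m)| + 1 ≤ (3 / 2) ^ m * (|wv x y k| + 1) := by
  intro m
  induction m with
  | zero => simp
  | succ m ih =>
    have h0 : |wv x y (k + (m + 1))| + 1 ≤ 3 / 2 * (|wv x y (k + m)| + 1) := by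
      have h3 := abs_nonneg (wv x y (k + m))
      rcases wv_step x y (k + m) with ⟨-, h⟩ | ⟨-, h⟩
      · rw [← add_assoc, h, abs_div, abs_of_pos (show (0 : ℝ) < 2 by norm_num)]
        linarith
      · rw [← add_assoc, h, abs_div, abs_of_pos (show (0 : ℝ) < 2 by norm_num)]
        have h4 := abs_add_le (3 * wv x y (k + m)) 1
        rw [abs_mul, abs_one, abs_of_pos (show (0 : ℝ) < 3 by norm_num)] at h4
        linarith
    rw [pow_succ]
    have h5 : (3 / 2 : ℝ) * (|wv x y (k + m)| + 1) ≤ 3 / 2 * ((3 / 2) ^ m * (|wv x y k| + 1)) :=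
      mul_le_mul_of_nonneg_left ih (by norm_num)
    linarith

/-- the displacement at the time of contraction -/
theorem LN_disp {C : ℝ} {L k : ℕ} {j : ℤ → ℕ} (hC : 1 ≤ C) (hL : 1 ≤ L) (h : LN C L k j) (x : ℤ) :
    |(oc k (x + j x) : ℝ) - ((k : ℝ) / 2 + (kap * k - Real.log L * (1 / Real.log 3)))| ≤
      Real.log C / Real.log 3 := by
  obtain ⟨-, -, h3⟩ := h
  obtain ⟨h4, h5, -⟩ := h3 x
  have hl3 : 0 < Real.log 3 := Real.log_pos (by norm_num)
  have hL0 : (0 : ℝ) < L := by exact_mod_cast hL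
  have hC0 : 0 < C := by linarith
  have g1 := Real.log_le_log (by positivity) h4
  have g2 := Real.log_le_log (by positivity) h5
  rw [Real.log_pow, Real.log_mul hC0.ne' (by positivity), Real.log_mul (by positivity) hL0.ne',
    Real.log_pow] at g1
  rw [Real.log_mul (by positivity) hL0.ne', Real.log_pow, Real.log_mul hC0.ne' (by positivity),
    Real.log_pow] at g2
  have e : (oc k (x + j x) : ℝ) - ((k : ℝ) / 2 + (kap * k - Real.log L * (1 / Real.log 3))) =
      ((oc k (x + j x) : ℝ) * Real.log 3 + Real.log L - k * Real.log 2) / Real.log 3 := by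
    unfold kap
    field_simp
    ring
  rw [e, abs_div, abs_of_pos hl3]
  refine div_le_div_of_nonneg_right ?_ hl3.le
  rw [abs_le]
  constructor <;> linarith

/-- the offset at the time of contraction -/
theorem LN_off {C : ℝ} {L k : ℕ} {j : ℤ → ℕ} (hC : 1 ≤ C) (hL : 1 ≤ L) (h : LN C L k j) (x : ℤ) :
    |wv x (x + j x) k| ≤ 2 * C := by
  obtain ⟨h1, -, h3⟩ := h
  obtain ⟨-, h5, h6⟩ := h3 x
  have h1x : (j x : ℝ) ≤ L := by exact_mod_cast (h1 x).le
  have e : wv x (x + j x) k = ((T^[k] (x + j x) : ℤ) : ℝ) - 3 ^ oc k (x + j x) * (x + j x) / 2 ^ k +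
      3 ^ oc k (x + j x) * (j x) / 2 ^ k := by
    unfold wv
    ring
  rw [e]
  refine (abs_add_le _ _).trans ?_
  have h7 : |(3 : ℝ) ^ oc k (x + j x) * (j x) / 2 ^ k| ≤ C := by
    rw [abs_of_nonneg (by positivity), div_le_iff₀ (by positivity)]
    exact (mul_le_mul_of_nonneg_left h1x (by positivity)).trans h5
  linarith

/-- the prescribed place at the time `u` -/
noncomputable def Ap (L k u : ℕ) : ℤ := ⌊(u : ℝ) / 2 + (kap * k - Real.log L * (1 / Real.log 3))⌋

/-- the law of the coincidences of a family of trajectories -/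
theorem fam (n : ℕ) (C ε₀ ε : ℝ) (hC : 1 ≤ C) (hε₀ : 0 < ε₀) (hε : 0 < ε) : ∃ ρ : ℝ, 0 < ρ ∧
    ∃ t₀ : ℕ, ∀ t : ℕ, t₀ ≤ t → ∀ L : ℕ, 1 ≤ L → ∀ (κ : Fin n → ℕ) (u : ℕ), (∀ i, κ i ≤ u) →
    (u : ℝ) ≤ (1 - ε₀) * t → (∀ i, (u : ℝ) - κ i ≤ ρ * (t / Real.log t)) →
    ∀ j : Fin n → ℤ → ℕ, (∀ i, LN C L (κ i) (j i)) → ∀ Φ : (Fin n → ℤ) → ℝ, (∀ z, |Φ z| ≤ 1) →
    PatF Φ → |EE t (fun x => Φ (fun i => (oc t (x + j i x) : ℤ))) -
      CG Φ (t - u) (fun i => Ap L (κ i) u)| ≤ ε := by
  have hκap : 0 < kap ∧ kap ≤ 1 / 2 := by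
    unfold kap
    have h1 := Pool.Agent.Q190.BT.log_half
    have h2 := Pool.Agent.Q190.BT.log_quot_lt_one
    constructor <;> linarith
  obtain ⟨CL, hCL, hlip⟩ := lip_all n
  obtain ⟨ρ₁, hρ₁, t₁, hlaw⟩ := pat_law n (ε / 4) (by positivity)
  set N : ℝ := (n : ℝ) + 1 with hN
  have hN0 : 0 < N := by positivity
  have hnN : (n : ℝ) ≤ N := by rw [hN]; linarith
  set δ : ℝ := ε * √ε₀ / (8 * CL * N) with hδ
  have hsε : 0 < √ε₀ := Real.sqrt_pos.2 hε₀
  have hδ0 : 0 < δ := by positivity
  set ρ : ℝ := min (ρ₁ * ε₀ / 4) (ε * δ ^ 2 / (4 * N)) with hρ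
  have hρ0 : 0 < ρ := lt_min (by positivity) (by positivity)
  have hρa : ρ ≤ ρ₁ * ε₀ / 4 := min_le_left _ _
  have hρb : ρ ≤ ε * δ ^ 2 / (4 * N) := min_le_right _ _
  obtain ⟨t₂, ht₂⟩ := ev (4 * δ + 1) (ρ₁ * ε₀ / 4) (by positivity)
  set C₂ : ℝ := Real.log C / Real.log 3 with hC₂
  have hl3 : 0 < Real.log 3 := Real.log_pos (by norm_num)
  have hC20 : 0 ≤ C₂ := div_nonneg (Real.log_nonneg hC) hl3.le
  obtain ⟨N₁, hN₁⟩ := exists_nat_ge (2 * (C₂ + 1) / δ)
  obtain ⟨t₃, ht₃⟩ := exists_nat_ge (4 * Real.log (2 * (2 * C + 1)) / (ρ₁ * ε₀))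
  obtain ⟨t₄, ht₄⟩ := exists_nat_ge (t₁ / ε₀)
  refine ⟨ρ, hρ0, max (N₁ ^ 2) (max t₂ (max t₃ (max t₄ 3))), fun t ht L hL κ u hκu hut hgap j hj Φ hΦ1 hΦ => ?_⟩
  have a1 : N₁ ^ 2 ≤ t := (le_max_left _ _).trans ht
  have a2 : t₂ ≤ t := ((le_max_left _ _).trans (le_max_right _ _)).trans ht
  have a3 : t₃ ≤ t := ((le_max_left _ _).trans ((le_max_right _ _).trans (le_max_right _ _))).trans ht
  have a4 : t₄ ≤ t := ((le_max_left _ _).trans ((le_max_right _ _).trans
    ((le_max_right _ _).trans (le_max_right _ _)))).trans ht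
  have a5 : 3 ≤ t := ((le_max_right _ _).trans ((le_max_right _ _).trans
    ((le_max_right _ _).trans (le_max_right _ _)))).trans ht
  have ht3 : (3 : ℝ) ≤ t := by exact_mod_cast a5
  have ht0 : (0 : ℝ) < t := by linarith
  have hst0 : 0 < √(t : ℝ) := Real.sqrt_pos.2 ht0
  have hss : √(t : ℝ) * √(t : ℝ) = t := Real.mul_self_sqrt ht0.le
  have hlog1 : 1 ≤ Real.log t := by
    rw [Real.le_log_iff_exp_le ht0]
    have := Real.exp_one_lt_d9
    linarith
  have hNt : (N₁ : ℝ) ≤ √t := by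
    apply Real.le_sqrt_of_sq_le
    exact_mod_cast a1
  have b1 : C₂ + 1 ≤ δ / 2 * √t := by
    have h5 := hN₁.trans hNt
    rw [div_le_iff₀ hδ0] at h5
    linarith
  have b2 := ht₂ t a2
  have b3 : 4 * Real.log (2 * (2 * C + 1)) ≤ t * (ρ₁ * ε₀) := by
    have h5 : 4 * Real.log (2 * (2 * C + 1)) / (ρ₁ * ε₀) ≤ t := ht₃.trans (by exact_mod_cast a3)
    rwa [div_le_iff₀ (by positivity)] at h5
  have hu_t : u ≤ t := by
    have h5 : (1 - ε₀) * (t : ℝ) ≤ t := by
      have := mul_pos hε₀ ht0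
      linarith only [this]
    exact_mod_cast hut.trans h5
  obtain ⟨r, hr⟩ := Nat.exists_eq_add_of_le hu_t
  have hru : t - u = r := by omega
  have hrr : (r : ℝ) = t - u := by
    rw [hr]
    push_cast
    ring
  have hr1 : ε₀ * t ≤ r := by rw [hrr]; linarith
  have hr0 : (0 : ℝ) < r := lt_of_lt_of_le (by positivity) hr1
  have hrt : (r : ℝ) ≤ t := by
    rw [hrr]
    have : (0 : ℝ) ≤ u := Nat.cast_nonneg u
    linarith
  have hrt1 : t₁ ≤ r := by
    have h5 : (t₁ : ℝ) / ε₀ ≤ t := ht₄.trans (by exact_mod_cast a4)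
    rw [div_le_iff₀ hε₀] at h5
    have h6 : (t₁ : ℝ) ≤ r := by linarith
    exact_mod_cast h6
  have hr_1 : (1 : ℝ) ≤ r := by
    have : 0 < r := by exact_mod_cast hr0
    exact_mod_cast this
  have hlogr : 0 ≤ Real.log r := Real.log_nonneg hr_1
  have hlogrt : Real.log r ≤ Real.log t := Real.log_le_log hr0 hrt
  have htl : t / Real.log t ≤ (t : ℝ) := div_le_self ht0.le hlog1
  have htl0 : 0 ≤ (t : ℝ) / Real.log t := by positivity
  rw [hru]
  -- displacement
  set d : Fin n → ℝ := fun i => kap * κ i - Real.log L * (1 / Real.log 3) with hd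
  set P : Fin n → ℤ → Prop := fun i x => δ * √t < |(oc u (x + j i x) : ℝ) - ((u : ℝ) / 2 + d i)| with hP
  -- bad residues
  have hbad : ∀ i, EE u (fun x => Set.indicator {x : ℤ | P i x} 1 x) ≤ ε / (4 * N) := by
    intro i
    obtain ⟨s, hs⟩ := Nat.exists_eq_add_of_le (hκu i)
    have hη : 0 < δ / 2 * √t := by positivity
    have h5 := extend (κ i) s (j i) (hj i).2.1 (d i) C₂ (δ / 2 * √t) hη
    rw [← hs] at h5
    have h6 : EE (κ i) (fun x => Set.indicator {x : ℤ | C₂ < |(oc (κ i) (x + j i x) : ℝ) -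
        ((κ i : ℝ) / 2 + d i)|} 1 x) = 0 := by
      have h7 : (fun x : ℤ => Set.indicator {x : ℤ | C₂ < |(oc (κ i) (x + j i x) : ℝ) -
          ((κ i : ℝ) / 2 + d i)|} (1 : ℤ → ℝ) x) = fun _ => 0 := by
        funext x
        apply Set.indicator_of_notMem
        intro hx
        rw [Set.mem_ofPred_eq] at hx
        exact absurd (LN_disp hC hL (hj i) x) (not_le.2 hx)
      rw [h7, EE_const]
    rw [h6, zero_add] at h5
    have h7 : EE u (fun x => Set.indicator {x : ℤ | P i x} 1 x) ≤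
        EE u (fun x => Set.indicator {x : ℤ | C₂ + δ / 2 * √t <
          |(oc u (x + j i x) : ℝ) - ((u : ℝ) / 2 + d i)|} 1 x) := by
      refine EE_mono u fun x => ?_
      by_cases hx : P i x
      · rw [ind_one hx, ind_one (P := fun x => C₂ + δ / 2 * √t <
          |(oc u (x + j i x) : ℝ) - ((u : ℝ) / 2 + d i)|) (lt_of_le_of_lt (by linarith) hx)]
      · rw [ind_zero hx]
        exact ind_nonneg _ x
    refine h7.trans (h5.trans ?_)
    have h8 : (s : ℝ) ≤ ρ * t := by
      have h9 := hgap i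
      have h10 : (s : ℝ) = u - κ i := by
        rw [hs]
        push_cast
        ring
      rw [h10]
      exact h9.trans (mul_le_mul_of_nonneg_left htl hρ0.le)
    have h9 : (s : ℝ) / 4 / (δ / 2 * √t) ^ 2 = s / (δ ^ 2 * t) := by
      have : (δ / 2 * √t) ^ 2 = δ ^ 2 / 4 * t := by
        rw [mul_pow, Real.sq_sqrt ht0.le]
        ring
      rw [this]
      field_simp
    rw [h9, div_le_iff₀ (by positivity)]
    have h10 : ρ * t ≤ ε * δ ^ 2 / (4 * N) * t := mul_le_mul_of_nonneg_right hρb ht0.le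
    have h11 : ε / (4 * N) * (δ ^ 2 * t) = ε * δ ^ 2 / (4 * N) * t := by ring
    linarith
  -- the forms at the time `u`
  set a : ℤ → Fin n → ℕ := fun x i => oc u (x + j i x) with ha
  set b : ℤ → Fin n → ℤ := fun x i => T^[u] (x + j i x) with hb
  have hsplit : EE t (fun x => Φ (fun i => (oc t (x + j i x) : ℤ))) =
      EE u (fun x => EE r (fun N => Φ (Lv (a x) (b x) r N))) := by
    conv_lhs => rw [hr, EE_split]
    congr 1
    funext x
    congr 1
    funext N
    congr 1
    funext i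
    have hjx : j i (2 ^ u * N + x) = j i x := by
      obtain ⟨s, hs⟩ := Nat.exists_eq_add_of_le (hκu i)
      have e1 : (2 ^ u * N + x : ℤ) = x + 2 ^ κ i * (2 ^ s * N) := by
        rw [hs, pow_add]
        ring
      rw [e1, (hj i).2.1]
    have hx : (2 ^ u * N + x : ℤ) + (j i (2 ^ u * N + x) : ℤ) = (x + j i x) + 2 ^ u * N := by
      rw [hjx]; ring
    show ((oc (u + r) ((2 ^ u * N + x : ℤ) + (j i (2 ^ u * N + x) : ℤ)) : ℕ) : ℤ) =
      ((oc u (x + j i x) : ℕ) : ℤ) + oc r (yy (a x) (b x) i N)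
    rw [hx, oc_add, oc_per, T_add]
    have e2 : T^[u] (x + j i x) + 3 ^ oc u (x + j i x) * N = yy (a x) (b x) i N := by
      unfold yy
      rw [ha, hb]
      ring
    rw [e2]
    push_cast
    ring
  rw [hsplit]
  -- good residues
  have hgood : ∀ x, (∀ i, ¬ P i x) →
      |EE r (fun N => Φ (Lv (a x) (b x) r N)) - CG Φ r (fun i => Ap L (κ i) u)| ≤ ε / 2 := by
    intro x hx
    have hx' : ∀ i, |(oc u (x + j i x) : ℝ) - ((u : ℝ) / 2 + d i)| ≤ δ * √t := by
      intro i
      have := hx i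
      rw [hP] at this
      push Not at this
      exact this
    have hoff : Off ρ₁ r (a x) (b x) := by
      refine ⟨fun i i' => ?_, fun i i' hii => ?_⟩
      · have g1 := (abs_le.1 (hx' i')).2
        have g2 := (abs_le.1 (hx' i)).1
        have g3 : d i' - d i ≤ ρ * (t / Real.log t) := by
          have g4 : d i' - d i = kap * ((κ i' : ℝ) - κ i) := by
            rw [hd]
            ring
          have g5 : (κ i' : ℝ) ≤ u := by exact_mod_cast hκu i'
          have g6 := hgap i
          have g7 : 0 ≤ ρ * (t / Real.log t) := by positivity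
          rw [g4]
          rcases le_total ((κ i' : ℝ) - κ i) 0 with g8 | g8
          · exact (mul_nonpos_of_nonneg_of_nonpos hκap.1.le g8).trans g7
          · calc kap * ((κ i' : ℝ) - κ i) ≤ 1 * ((κ i' : ℝ) - κ i) :=
                  mul_le_mul_of_nonneg_right (by linarith [hκap.2]) g8
              _ ≤ ρ * (t / Real.log t) := by linarith
        have g9 : ((a x i' : ℝ) - a x i) ≤ 2 * (δ * √t) + ρ * (t / Real.log t) := by
          show (oc u (x + j i' x) : ℝ) - (oc u (x + j i x) : ℝ) ≤ _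
          linarith
        have g10 : 0 ≤ 2 * (δ * √t) + ρ * (t / Real.log t) := by positivity
        calc ((a x i' : ℝ) - a x i) * Real.log r ≤
              (2 * (δ * √t) + ρ * (t / Real.log t)) * Real.log r :=
              mul_le_mul_of_nonneg_right g9 hlogr
          _ ≤ (2 * (δ * √t) + ρ * (t / Real.log t)) * Real.log t :=
              mul_le_mul_of_nonneg_left hlogrt g10
          _ = 2 * δ * (√t * Real.log t) + ρ * t := by
              field_simp
          _ ≤ ρ₁ * (ε₀ * t) := by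
              have g11 : 2 * δ * (√t * Real.log t) ≤ (4 * δ + 1) * (1 + √t + √t * Real.log t) := by
                have g12 : 0 ≤ √t * Real.log t := by positivity
                calc 2 * δ * (√t * Real.log t) ≤ (4 * δ + 1) * (√t * Real.log t) :=
                      mul_le_mul_of_nonneg_right (by linarith only [hδ0]) g12
                  _ ≤ (4 * δ + 1) * (1 + √t + √t * Real.log t) :=
                      mul_le_mul_of_nonneg_left (by linarith only [hst0]) (by positivity)
              have g13 : ρ * t ≤ ρ₁ * ε₀ / 4 * t := mul_le_mul_of_nonneg_right hρa ht0.le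
              have g14 : 0 ≤ ρ₁ * ε₀ * t := by positivity
              linarith
          _ ≤ ρ₁ * r := mul_le_mul_of_nonneg_left hr1 hρ₁.le
      · have hw : ∀ i, |wv x (x + j i x) u| ≤ Real.exp (ρ₁ * r) / 2 := by
          intro i
          obtain ⟨s, hs⟩ := Nat.exists_eq_add_of_le (hκu i)
          have g1 := wv_growth x (x + j i x) (κ i) s
          rw [← hs] at g1
          have g2 := LN_off hC hL (hj i) x
          have g3 : (3 / 2 : ℝ) ^ s ≤ Real.exp (ρ * t) := by
            have h8 : (s : ℝ) ≤ ρ * t := by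
              have h9 := hgap i
              have h10 : (s : ℝ) = u - κ i := by
                rw [hs]
                push_cast
                ring
              rw [h10]
              exact h9.trans (mul_le_mul_of_nonneg_left htl hρ0.le)
            have h9 : (3 / 2 : ℝ) ≤ Real.exp 1 := by
              have := Real.add_one_le_exp (1 : ℝ)
              linarith
            calc (3 / 2 : ℝ) ^ s ≤ Real.exp 1 ^ s := pow_le_pow_left₀ (by norm_num) h9 s
              _ = Real.exp (s : ℝ) := by rw [← Real.exp_nat_mul, mul_one]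
              _ ≤ Real.exp (ρ * t) := Real.exp_le_exp.2 h8
          have g4 : (3 / 2 : ℝ) ^ s * (|wv x (x + j i x) (κ i)| + 1) ≤
              Real.exp (ρ * t) * (2 * C + 1) :=
            mul_le_mul g3 (by linarith) (by positivity) (by positivity)
          have g5 : Real.exp (ρ * t) * (2 * C + 1) ≤ Real.exp (ρ₁ * r) / 2 := by
            have g6 : 2 * (2 * C + 1) ≤ Real.exp (ρ₁ * ε₀ / 4 * t) := by
              rw [← Real.log_le_iff_le_exp (by positivity)]
              linarith
            have g7 : ρ * t + ρ₁ * ε₀ / 4 * t ≤ ρ₁ * r := by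
              have g8 : ρ * t ≤ ρ₁ * ε₀ / 4 * t := mul_le_mul_of_nonneg_right hρa ht0.le
              have g9 : ρ₁ * (ε₀ * t) ≤ ρ₁ * r := mul_le_mul_of_nonneg_left hr1 hρ₁.le
              have g10 : 0 ≤ ρ₁ * ε₀ * t := by positivity
              linarith
            have g8 : Real.exp (ρ * t) * (2 * (2 * C + 1)) ≤ Real.exp (ρ₁ * r) := by
              calc Real.exp (ρ * t) * (2 * (2 * C + 1)) ≤
                    Real.exp (ρ * t) * Real.exp (ρ₁ * ε₀ / 4 * t) :=
                    mul_le_mul_of_nonneg_left g6 (Real.exp_pos _).le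
                _ = Real.exp (ρ * t + ρ₁ * ε₀ / 4 * t) := by rw [Real.exp_add]
                _ ≤ Real.exp (ρ₁ * r) := Real.exp_le_exp.2 g7
            linarith
          linarith
        have hii' : oc u (x + j i x) ≤ oc u (x + j i' x) := hii
        obtain ⟨m, hm⟩ := Nat.exists_eq_add_of_le hii'
        have hm2 : a x i' - a x i = m := by
          show oc u (x + j i' x) - oc u (x + j i x) = m
          omega
        rw [hm2]
        have e : ((b x i' : ℤ) : ℝ) - 3 ^ m * b x i =
            wv x (x + j i' x) u - 3 ^ m * wv x (x + j i x) u := by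
          unfold wv
          rw [hm, pow_add]
          show ((T^[u] (x + j i' x) : ℤ) : ℝ) - 3 ^ m * ((T^[u] (x + j i x) : ℤ) : ℝ) = _
          ring
        rw [e]
        refine (abs_sub _ _).trans ?_
        rw [abs_mul, abs_of_pos (show (0 : ℝ) < 3 ^ m by positivity)]
        have g1 := hw i'
        have g2 := hw i
        have g3 : (1 : ℝ) ≤ 3 ^ m := one_le_pow₀ (by norm_num)
        have g4 : 0 ≤ Real.exp (ρ₁ * r) / 2 := by positivity
        have g5 : (3 : ℝ) ^ m * |wv x (x + j i x) u| ≤ 3 ^ m * (Real.exp (ρ₁ * r) / 2) :=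
          mul_le_mul_of_nonneg_left g2 (by positivity)
        have g6 : 1 * (Real.exp (ρ₁ * r) / 2) ≤ 3 ^ m * (Real.exp (ρ₁ * r) / 2) :=
          mul_le_mul_of_nonneg_right g3 g4
        linarith
    have g1 := hlaw r hrt1 (a x) (b x) hoff Φ hΦ1 hΦ
    have g2 := hlip Φ hΦ1 r (fun i => ((a x i : ℕ) : ℤ)) (fun i => Ap L (κ i) u)
    have g3 : CL / √((r : ℝ) + 1) * ∑ i, |(((a x i : ℕ) : ℤ) : ℝ) - Ap L (κ i) u| ≤ ε / 4 := by
      have g4 : ∀ i ∈ (univ : Finset (Fin n)), |(((a x i : ℕ) : ℤ) : ℝ) - Ap L (κ i) u| ≤ 2 * (δ * √t) := by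
        intro i _
        have g5 := hx' i
        have g6 : |((u : ℝ) / 2 + d i) - (Ap L (κ i) u : ℝ)| ≤ 1 := by
          have g7 := Int.floor_le ((u : ℝ) / 2 + d i)
          have g8 := Int.lt_floor_add_one ((u : ℝ) / 2 + d i)
          have g9 : Ap L (κ i) u = ⌊(u : ℝ) / 2 + d i⌋ := rfl
          rw [g9, abs_le]
          constructor <;> linarith
        have g7 : (((a x i : ℕ) : ℤ) : ℝ) - Ap L (κ i) u =
            ((oc u (x + j i x) : ℝ) - ((u : ℝ) / 2 + d i)) + (((u : ℝ) / 2 + d i) - (Ap L (κ i) u : ℝ)) := by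
          show ((((oc u (x + j i x)) : ℕ) : ℤ) : ℝ) - Ap L (κ i) u = _
          push_cast
          ring
        rw [g7]
        refine (abs_add_le _ _).trans ?_
        have g8 : 1 ≤ δ * √t := by
          have : 0 ≤ δ / 2 * √t := by positivity
          linarith
        linarith
      have g5 := sum_le_sum g4
      rw [sum_const, card_univ, Fintype.card_fin, nsmul_eq_mul] at g5
      have g6 : CL / √((r : ℝ) + 1) ≤ CL / (√ε₀ * √t) := by
        apply div_le_div_of_nonneg_left hCL.le (by positivity)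
        rw [← Real.sqrt_mul hε₀.le]
        exact Real.sqrt_le_sqrt (by linarith)
      calc CL / √((r : ℝ) + 1) * ∑ i, |(((a x i : ℕ) : ℤ) : ℝ) - Ap L (κ i) u| ≤
            CL / (√ε₀ * √t) * (n * (2 * (δ * √t))) :=
            mul_le_mul g6 g5 (sum_nonneg fun _ _ => abs_nonneg _) (by positivity)
        _ ≤ CL / (√ε₀ * √t) * (N * (2 * (δ * √t))) := by
            apply mul_le_mul_of_nonneg_left _ (by positivity)
            exact mul_le_mul_of_nonneg_right hnN (by positivity)
        _ = ε / 4 := by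
            rw [hδ]
            field_simp
            ring
    have g4 := abs_sub_le (EE r (fun N => Φ (Lv (a x) (b x) r N)))
      (CG Φ r (fun i => ((a x i : ℕ) : ℤ))) (CG Φ r (fun i => Ap L (κ i) u))
    linarith
  -- average
  have hΦE : ∀ x, |EE r (fun N => Φ (Lv (a x) (b x) r N))| ≤ 1 := by
    intro x
    rw [abs_le]
    constructor
    · have := EE_mono r (fun N => (abs_le.1 (hΦ1 (Lv (a x) (b x) r N))).1)
      rwa [EE_const] at this
    · have := EE_mono r (fun N => (abs_le.1 (hΦ1 (Lv (a x) (b x) r N))).2)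
      rwa [EE_const] at this
  have hCG1 : |CG Φ r (fun i => Ap L (κ i) u)| ≤ 1 := CG_abs hΦ1 _ _
  have hpt : ∀ x, |EE r (fun N => Φ (Lv (a x) (b x) r N)) - CG Φ r (fun i => Ap L (κ i) u)| ≤
      ε / 2 + 2 * ∑ i, Set.indicator {x : ℤ | P i x} 1 x := by
    intro x
    have hnn : 0 ≤ ∑ i, Set.indicator {x : ℤ | P i x} (1 : ℤ → ℝ) x :=
      sum_nonneg fun i _ => ind_nonneg _ x
    by_cases hx : ∀ i, ¬ P i x
    · have := hgood x hx
      linarith
    · push Not at hx
      obtain ⟨i, hi⟩ := hx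
      have h5 : (1 : ℝ) ≤ ∑ i, Set.indicator {x : ℤ | P i x} (1 : ℤ → ℝ) x := by
        have h6 := single_le_sum (f := fun i => Set.indicator {x : ℤ | P i x} (1 : ℤ → ℝ) x)
          (fun i _ => ind_nonneg (P i) x) (mem_univ i)
        rw [ind_one hi] at h6
        exact h6
      have h6 := abs_sub (EE r (fun N => Φ (Lv (a x) (b x) r N))) (CG Φ r (fun i => Ap L (κ i) u))
      have h7 := hΦE x
      linarith
  have hsum : EE u (fun x => ε / 2 + 2 * ∑ i, Set.indicator {x : ℤ | P i x} (1 : ℤ → ℝ) x) ≤ ε := by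
    rw [EE_add u (fun _ => ε / 2), EE_const, EE_mul, EE_sum]
    have h5 := sum_le_sum fun i (_ : i ∈ (univ : Finset (Fin n))) => hbad i
    rw [sum_const, card_univ, Fintype.card_fin, nsmul_eq_mul] at h5
    have h6 : (n : ℝ) * (ε / (4 * N)) ≤ ε / 4 := by
      rw [mul_div_assoc', div_le_div_iff₀ (by positivity) (by norm_num)]
      have h7 := mul_le_mul_of_nonneg_right hnN hε.le
      linarith only [h7]
    linarith
  have hc : CG Φ r (fun i => Ap L (κ i) u) = EE u (fun _ => CG Φ r (fun i => Ap L (κ i) u)) := by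
    rw [EE_const]
  rw [hc, ← EE_sub]
  rw [abs_le]
  constructor
  · have h5 := EE_mono u (fun x => (abs_le.1 (hpt x)).1)
    have h6 : EE u (fun x => -(ε / 2 + 2 * ∑ i, Set.indicator {x : ℤ | P i x} (1 : ℤ → ℝ) x)) =
        -EE u (fun x => (ε / 2 + 2 * ∑ i, Set.indicator {x : ℤ | P i x} (1 : ℤ → ℝ) x)) := by
      have := EE_mul u (-1) (fun x => (ε / 2 + 2 * ∑ i, Set.indicator {x : ℤ | P i x} (1 : ℤ → ℝ) x))
      simp only [neg_mul, one_mul] at this
      exact this
    rw [h6] at h5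
    linarith
  · have h5 := EE_mono u (fun x => (abs_le.1 (hpt x)).2)
    linarith

end Pool.Agent.Q137.BT
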