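import Pool.Agent.Q137.BT.CovF

/-!
# Project BT, part 7, job CovL: asymptotic independence of two groups of trajectories
-/

set_option autoImplicit false
set_option linter.unusedVariables false

namespace Pool.Agent.Q137.BT

open Finset
open Pool.Agent.Q158.Pair (T)
open Pool.Agent.Q74.AR (oc oc_per bE bE_mono bE_const)
open Pool.Agent.Q74.KP (EE Lv yy EE_add EE_mul EE_sub EE_sum EE_mono EE_const EE_nonneg oc_add Erf pq
  pq_le_one)
open Pool.Agent.Q74.SF
open Pool.Agent.Q74.BT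
open Pool.Agent.Q14.BT (ev)
open scoped Classical

/-- the chain of times -/
theorem chain {K : ℕ} {h : ℝ} (hh : 1 ≤ h) (hκ : 0 < kap) (k : Fin (K + 1) → ℕ)
    (hk : ∀ i : Fin K, |kap * ((k i.succ : ℝ) - k i.castSucc) - h| ≤ 1) :
    Monotone k ∧ kap * ((k (Fin.last K) : ℝ) - k 0) ≤ K * (h + 1) := by
  constructor
  · rw [Fin.monotone_iff_le_succ]
    intro i
    have h1 := (abs_le.1 (hk i)).1
    have h2 : 0 ≤ kap * ((k i.succ : ℝ) - k i.castSucc) := by linarith
    have h3 : 0 ≤ (k i.succ : ℝ) - k i.castSucc := by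
      by_contra h4
      push Not at h4
      have := mul_neg_of_pos_of_neg hκ h4
      linarith
    have h4 : (k i.castSucc : ℝ) ≤ k i.succ := by linarith
    exact_mod_cast h4
  · have h1 : ∀ i : Fin (K + 1), kap * ((k i : ℝ) - k 0) ≤ ((i : ℕ) : ℝ) * (h + 1) := by
      intro i
      induction i using Fin.induction with
      | zero => simp
      | succ i ih =>
        have h2 := (abs_le.1 (hk i)).2
        have h3 : kap * ((k i.succ : ℝ) - k 0) =
            kap * ((k i.succ : ℝ) - k i.castSucc) + kap * ((k i.castSucc : ℝ) - k 0) := by ring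
        have h4 : (((i.castSucc : Fin (K + 1)) : ℕ) : ℝ) = ((i : ℕ) : ℝ) := rfl
        have h5 : (((i.succ : Fin (K + 1)) : ℕ) : ℝ) = ((i : ℕ) : ℝ) + 1 := by
          rw [Fin.val_succ]
          push_cast
          ring
        rw [h4] at ih
        rw [h3, h5]
        linarith
    have h2 := h1 (Fin.last K)
    rwa [Fin.val_last] at h2

theorem covL (h1 : S_CwFar) (h2 : S_LipF) : S_CovL := by
  intro C ε₀ h₀ ε₁ K hC hε₀ hh₀ hε₁
  have hκap : 0 < kap := by
    unfold kap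
    have := Pool.Agent.Q190.BT.log_half
    linarith
  set M : ℝ := (K : ℝ) + 1 with hM
  have hM0 : 0 < M := by positivity
  obtain ⟨ρf, hρf, tf, hfam⟩ := fam ((K + 1) + (K + 1)) C ε₀ (ε₁ / 8) hC hε₀ (by positivity)
  obtain ⟨D, hD, tp, hpq⟩ := pq_far (ε₁ / (8 * M ^ 2)) (by positivity)
  obtain ⟨t₂, ht₂⟩ := ev (2 * K * (h₀ + 1)) (kap * ρf / 2) (by positivity)
  obtain ⟨t₃, ht₃⟩ := exists_nat_ge (1 / h₀)
  obtain ⟨t₄, ht₄⟩ := exists_nat_ge (tp / ε₀)
  refine ⟨kap * ρf / 2, D + 1, by positivity, by positivity, max tf (max t₂ (max (t₃ ^ 2) (max t₄ 3))),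
    fun t ht L hL hlogL k k' hk hk' hfar hnear hkt j j' hj hj' F F' hF hF' hFp hFp' => ?_⟩
  have a1 : tf ≤ t := (le_max_left _ _).trans ht
  have a2 : t₂ ≤ t := ((le_max_left _ _).trans (le_max_right _ _)).trans ht
  have a3 : t₃ ^ 2 ≤ t := ((le_max_left _ _).trans ((le_max_right _ _).trans (le_max_right _ _))).trans ht
  have a4 : t₄ ≤ t := ((le_max_left _ _).trans ((le_max_right _ _).trans
    ((le_max_right _ _).trans (le_max_right _ _)))).trans ht
  have a5 : 3 ≤ t := ((le_max_right _ _).trans ((le_max_right _ _).trans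
    ((le_max_right _ _).trans (le_max_right _ _)))).trans ht
  have ht3 : (3 : ℝ) ≤ t := by exact_mod_cast a5
  have ht0 : (0 : ℝ) < t := by linarith
  have hst1 : 1 ≤ √(t : ℝ) := by
    rw [Real.one_le_sqrt]
    linarith
  have hlog1 : 1 ≤ Real.log t := by
    rw [Real.le_log_iff_exp_le ht0]
    have := Real.exp_one_lt_d9
    linarith
  have hhst : 1 ≤ h₀ * √t := by
    have g1 : (t₃ : ℝ) ≤ √t := by
      apply Real.le_sqrt_of_sq_le
      exact_mod_cast a3
    have g2 := ht₃.trans g1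
    rw [div_le_iff₀ hh₀] at g2
    linarith
  obtain ⟨hmk, hsk⟩ := chain hhst hκap k hk
  obtain ⟨hmk', hsk'⟩ := chain hhst hκap k' hk'
  set u : ℕ := k' (Fin.last K) with hu
  have hkk : (k (Fin.last K) : ℝ) ≤ k' 0 := by
    by_contra h4
    push Not at h4
    have g1 := mul_neg_of_pos_of_neg hκap (show (k' 0 : ℝ) - k (Fin.last K) < 0 by linarith)
    have g2 : 0 ≤ (D + 1) * √t := by positivity
    linarith
  have hkk' : k (Fin.last K) ≤ k' 0 := by exact_mod_cast hkk
  have hlast' : k' 0 ≤ u := hmk' (Fin.zero_le _)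
  -- the family
  set κ : Fin ((K + 1) + (K + 1)) → ℕ := Fin.append k k' with hκ
  set J : Fin ((K + 1) + (K + 1)) → ℤ → ℕ := Fin.append j j' with hJ
  have hκl : ∀ i, κ (Fin.castAdd (K + 1) i) = k i := fun i => Fin.append_left k k' i
  have hκr : ∀ i, κ (Fin.natAdd (K + 1) i) = k' i := fun i => Fin.append_right k k' i
  have hJl : ∀ i, J (Fin.castAdd (K + 1) i) = j i := fun i => Fin.append_left j j' i
  have hJr : ∀ i, J (Fin.natAdd (K + 1) i) = j' i := fun i => Fin.append_right j j' i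
  have hκu : ∀ i, κ i ≤ u := by
    intro i
    refine Fin.addCases (fun i => ?_) (fun i => ?_) i
    · rw [hκl]
      exact (hmk (Fin.le_last i)).trans (hkk'.trans hlast')
    · rw [hκr]
      exact hmk' (Fin.le_last i)
  have hk0 : ∀ i, k 0 ≤ κ i := by
    intro i
    refine Fin.addCases (fun i => ?_) (fun i => ?_) i
    · rw [hκl]
      exact hmk (Fin.zero_le i)
    · rw [hκr]
      exact (hmk (Fin.zero_le _)).trans (hkk'.trans (hmk' (Fin.zero_le i)))
  have hLN : ∀ i, LN C L (κ i) (J i) := by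
    intro i
    refine Fin.addCases (fun i => ?_) (fun i => ?_) i
    · rw [hκl, hJl]
      exact hj i
    · rw [hκr, hJr]
      exact hj' i
  have hgap : ∀ i, (u : ℝ) - κ i ≤ ρf * (t / Real.log t) := by
    intro i
    have g0 : (k 0 : ℝ) ≤ κ i := by exact_mod_cast hk0 i
    have g1 : kap * ((u : ℝ) - k 0) = kap * ((k' (Fin.last K) : ℝ) - k' 0) +
        kap * ((k' 0 : ℝ) - k (Fin.last K)) + kap * ((k (Fin.last K) : ℝ) - k 0) := by
      rw [hu]
      ring
    have g2 : 2 * ((K : ℝ) * (h₀ * √t + 1)) ≤ kap * ρf / 2 * (t / Real.log t) := by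
      rw [mul_div_assoc', le_div_iff₀ (by linarith)]
      have g3 := ht₂ t a2
      refine le_trans ?_ g3
      have g4 : h₀ * √t + 1 ≤ (h₀ + 1) * √t := by nlinarith
      have g5 : 2 * ((K : ℝ) * (h₀ * √t + 1)) ≤ 2 * (K * ((h₀ + 1) * √t)) := by
        apply mul_le_mul_of_nonneg_left _ (by norm_num)
        exact mul_le_mul_of_nonneg_left g4 (Nat.cast_nonneg K)
      calc 2 * ((K : ℝ) * (h₀ * √t + 1)) * Real.log t ≤ 2 * (K * ((h₀ + 1) * √t)) * Real.log t :=
            mul_le_mul_of_nonneg_right g5 (by linarith)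
        _ = 2 * K * (h₀ + 1) * (√t * Real.log t) := by ring
        _ ≤ 2 * K * (h₀ + 1) * (1 + √t + √t * Real.log t) := by
            apply mul_le_mul_of_nonneg_left _ (by positivity)
            linarith
    have g3 : kap * ((u : ℝ) - k 0) ≤ kap * (ρf * (t / Real.log t)) := by
      rw [g1]
      calc kap * ((k' (Fin.last K) : ℝ) - k' 0) + kap * ((k' 0 : ℝ) - k (Fin.last K)) +
            kap * ((k (Fin.last K) : ℝ) - k 0) ≤
            (K : ℝ) * (h₀ * √t + 1) + kap * ρf / 2 * (t / Real.log t) + (K : ℝ) * (h₀ * √t + 1) := by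
            linarith
        _ ≤ kap * ρf / 2 * (t / Real.log t) + kap * ρf / 2 * (t / Real.log t) := by linarith
        _ = kap * (ρf * (t / Real.log t)) := by ring
    have g4 := le_of_mul_le_mul_left g3 hκap
    linarith
  have hut : u ≤ t := by
    have h5 : (1 - ε₀) * (t : ℝ) ≤ t := by nlinarith
    exact_mod_cast hkt.trans h5
  set r : ℕ := t - u with hr
  have hrr : (r : ℝ) = t - u := by
    rw [hr, Nat.cast_sub hut]
  have hrt : r ≤ t := Nat.sub_le _ _
  have hrp : tp ≤ r := by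
    have h5 : (tp : ℝ) / ε₀ ≤ t := ht₄.trans (by exact_mod_cast a4)
    rw [div_le_iff₀ hε₀] at h5
    have h6 : (tp : ℝ) ≤ r := by
      rw [hrr]
      linarith
    exact_mod_cast h6
  -- the places
  set A : Fin ((K + 1) + (K + 1)) → ℤ := fun i => Ap L (κ i) u with hA
  have hAgap : ∀ i i' : Fin (K + 1), D * √t ≤ ((A (Fin.natAdd (K + 1) i') - A (Fin.castAdd (K + 1) i) : ℤ) : ℝ) := by
    intro i i'
    have g1 : A (Fin.natAdd (K + 1) i') = ⌊(u : ℝ) / 2 + (kap * k' i' - Real.log L * (1 / Real.log 3))⌋ := by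
      show Ap L (κ (Fin.natAdd (K + 1) i')) u = _
      rw [hκr]
      rfl
    have g2 : A (Fin.castAdd (K + 1) i) = ⌊(u : ℝ) / 2 + (kap * k i - Real.log L * (1 / Real.log 3))⌋ := by
      show Ap L (κ (Fin.castAdd (K + 1) i)) u = _
      rw [hκl]
      rfl
    have g3 := Int.floor_le ((u : ℝ) / 2 + (kap * k i - Real.log L * (1 / Real.log 3)))
    have g4 := Int.lt_floor_add_one ((u : ℝ) / 2 + (kap * k' i' - Real.log L * (1 / Real.log 3)))
    rw [g1, g2]
    push_cast
    have g5 : (k i : ℝ) ≤ k (Fin.last K) := by exact_mod_cast hmk (Fin.le_last i)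
    have g6 : (k' 0 : ℝ) ≤ k' i' := by exact_mod_cast hmk' (Fin.zero_le i')
    have g7 : kap * ((k' 0 : ℝ) - k (Fin.last K)) ≤ kap * ((k' i' : ℝ) - k i) :=
      mul_le_mul_of_nonneg_left (by linarith) hκap.le
    have g8 : (D + 1) * √t = D * √t + √t := by ring
    linarith
  set e : Fin (K + 1) → Fin ((K + 1) + (K + 1)) := Fin.castAdd (K + 1) with he
  set e' : Fin (K + 1) → Fin ((K + 1) + (K + 1)) := Fin.natAdd (K + 1) with he'
  have hPF : PatF (fun z : Fin ((K + 1) + (K + 1)) → ℤ => F (z ∘ e)) :=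
    fun v w h => hFp _ _ fun i i' => h (e i) (e i')
  have hPF' : PatF (fun z : Fin ((K + 1) + (K + 1)) → ℤ => F' (z ∘ e')) :=
    fun v w h => hFp' _ _ fun i i' => h (e' i) (e' i')
  have hPP : PatF (fun z : Fin ((K + 1) + (K + 1)) → ℤ => F (z ∘ e) * F' (z ∘ e')) := by
    intro v w h
    show F (v ∘ e) * F' (v ∘ e') = F (w ∘ e) * F' (w ∘ e')
    rw [hFp (v ∘ e) (w ∘ e) fun i i' => h (e i) (e i'), hFp' (v ∘ e') (w ∘ e') fun i i' => h (e' i) (e' i')]
  have hB : ∀ z : Fin ((K + 1) + (K + 1)) → ℤ, |F (z ∘ e) * F' (z ∘ e')| ≤ 1 := by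
    intro z
    rw [abs_mul]
    have := mul_le_mul (hF (z ∘ e)) (hF' (z ∘ e')) (abs_nonneg _) zero_le_one
    linarith
  have q1 := hfam t a1 L hL κ u hκu hkt hgap J hLN (fun z => F (z ∘ e) * F' (z ∘ e')) hB hPP
  have q2 := hfam t a1 L hL κ u hκu hkt hgap J hLN (fun z => F (z ∘ e)) (fun z => hF _) hPF
  have q3 := hfam t a1 L hL κ u hκu hkt hgap J hLN (fun z => F' (z ∘ e')) (fun z => hF' _) hPF'
  have el : ∀ x : ℤ, ((fun i => ((oc t (x + J i x) : ℕ) : ℤ)) ∘ e) = fun i => ((oc t (x + j i x) : ℕ) : ℤ) := by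
    intro x
    funext i
    show ((oc t (x + J (e i) x) : ℕ) : ℤ) = _
    rw [hJl]
  have er : ∀ x : ℤ, ((fun i => ((oc t (x + J i x) : ℕ) : ℤ)) ∘ e') = fun i => ((oc t (x + j' i x) : ℕ) : ℤ) := by
    intro x
    funext i
    show ((oc t (x + J (e' i) x) : ℕ) : ℤ) = _
    rw [hJr]
  simp only [el, er] at q1 q2 q3
  have q4 := h1 ((K + 1) + (K + 1)) (K + 1) (K + 1) e e' F F' hF hF' r A (fun i i' => by
    have g1 := hAgap i i'
    have g2 : 0 < D * √t := by positivity
    have g3 : (0 : ℝ) < ((A (e' i') - A (e i) : ℤ) : ℝ) := lt_of_lt_of_le g2 g1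
    have g4 : 0 < A (e' i') - A (e i) := by exact_mod_cast g3
    linarith)
  have q5 : 2 * ∑ i, ∑ i', (1 - pq r (A (e' i') - A (e i))) ≤ ε₁ / 4 := by
    have g1 : ∀ i ∈ (univ : Finset (Fin (K + 1))), ∑ i', (1 - pq r (A (e' i') - A (e i))) ≤
        M * (ε₁ / (8 * M ^ 2)) := by
      intro i _
      have g2 : ∀ i' ∈ (univ : Finset (Fin (K + 1))), (1 - pq r (A (e' i') - A (e i))) ≤
          ε₁ / (8 * M ^ 2) := fun i' _ => hpq r t hrp hrt _ (hAgap i i')
      have g3 := sum_le_sum g2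
      rw [sum_const, card_univ, Fintype.card_fin, nsmul_eq_mul] at g3
      push_cast at g3
      exact g3
    have g2 := sum_le_sum g1
    rw [sum_const, card_univ, Fintype.card_fin, nsmul_eq_mul] at g2
    push_cast at g2
    have g3 : ((K : ℝ) + 1) * (M * (ε₁ / (8 * M ^ 2))) = ε₁ / 8 := by
      rw [← hM]
      field_simp
    rw [g3] at g2
    linarith
  have b1 : |CG (fun z : Fin ((K + 1) + (K + 1)) → ℤ => F (z ∘ e)) r A| ≤ 1 := CG_abs (fun z => hF _) _ _
  have b2 : ∀ G : ℤ → ℝ, (∀ x, |G x| ≤ 1) → |EE t G| ≤ 1 := by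
    intro G hG
    rw [abs_le]
    constructor
    · have := EE_mono t (fun x => (abs_le.1 (hG x)).1)
      rwa [EE_const] at this
    · have := EE_mono t (fun x => (abs_le.1 (hG x)).2)
      rwa [EE_const] at this
  have b3 := b2 (fun x => F' (fun i => ((oc t (x + j' i x) : ℕ) : ℤ))) (fun x => hF' _)
  set X := EE t (fun x => F (fun i => ((oc t (x + j i x) : ℕ) : ℤ)) * F' (fun i => ((oc t (x + j' i x) : ℕ) : ℤ))) with hX
  set Y := EE t (fun x => F (fun i => ((oc t (x + j i x) : ℕ) : ℤ))) with hY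
  set Z := EE t (fun x => F' (fun i => ((oc t (x + j' i x) : ℕ) : ℤ))) with hZ
  set cX := CG (fun z : Fin ((K + 1) + (K + 1)) → ℤ => F (z ∘ e) * F' (z ∘ e')) r A with hcX
  set cY := CG (fun z : Fin ((K + 1) + (K + 1)) → ℤ => F (z ∘ e)) r A with hcY
  set cZ := CG (fun z : Fin ((K + 1) + (K + 1)) → ℤ => F' (z ∘ e')) r A with hcZ
  have e1 : X - Y * Z = (X - cX) + (cX - cY * cZ) + (cY * (cZ - Z) + (cY - Y) * Z) := by ring
  have e2 : |cY * (cZ - Z)| ≤ ε₁ / 8 := by
    rw [abs_mul, abs_sub_comm cZ Z]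
    calc |cY| * |Z - cZ| ≤ 1 * (ε₁ / 8) := mul_le_mul b1 q3 (abs_nonneg _) zero_le_one
      _ = ε₁ / 8 := one_mul _
  have e3 : |(cY - Y) * Z| ≤ ε₁ / 8 := by
    rw [abs_mul, abs_sub_comm cY Y]
    calc |Y - cY| * |Z| ≤ ε₁ / 8 * 1 := mul_le_mul q2 b3 (abs_nonneg _) (by positivity)
      _ = ε₁ / 8 := mul_one _
  rw [e1]
  refine (abs_add_le _ _).trans ?_
  have e4 := abs_add_le (X - cX) (cX - cY * cZ)
  have e5 := abs_add_le (cY * (cZ - Z)) ((cY - Y) * Z)
  have e6 := q4.trans q5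
  linarith

end Pool.Agent.Q137.BT
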