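import Pool.Agent.Q137.BT.UpWin

/-!
# Project BT, part 6, job UpM: the mean number of forms, upper bound by a Riemann sum over windows
-/

set_option autoImplicit false
set_option linter.unusedVariables false

namespace Pool.Agent.Q137.BT

open Finset Pool.Agent.Q74.BT Pool.Agent.Q195.BT
open Pool.Agent.Q158.Pair (T)
open Pool.Agent.Q74.AR (oc oc_per oc_le bE)
open Pool.Agent.Q74.KP (EE Erf EE_mono EE_add EE_mul EE_const EE_nonneg EE_sum oc_add)
open Pool.Agent.Q74.BL (nx ww nx_add nx_zero EE_split)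
open Pool.Agent.Q190.BT (tilt_up)
open Pool.Agent.Q211.BT (FF_neg gamma_ge)
open Pool.Agent.H395R2.G3 (rr FF)
open scoped Classical

theorem find_win (u : ℕ → ℕ) (k : ℕ) (h0 : u 0 < k) : ∀ J : ℕ, k ≤ u J →
    ∃ i < J, u i < k ∧ k ≤ u (i + 1) := by
  intro J
  induction J with
  | zero => intro h; omega
  | succ J ih =>
    intro h
    by_cases h1 : k ≤ u J
    · obtain ⟨i, h2, h3, h4⟩ := ih h1
      exact ⟨i, by omega, h3, h4⟩
    · exact ⟨J, by omega, by omega, h⟩

/-- decomposition of the forms by the window of the contraction time -/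
theorem VV_split {L t J : ℕ} {α : ℝ} (hL : 1 ≤ L) (u : ℕ → ℕ) (hu0 : 2 ^ u 0 < L)
    (huJ : α * Real.log L ≤ u J) (x : ℤ) :
    ((VV L t x).card : ℝ) ≤ ∑ i ∈ range J, ((VW (u i) (u (i + 1)) L t x).card : ℝ) +
      ∑ j ∈ range L, Set.indicator {x : ℤ | ∀ i : ℕ, (i : ℝ) ≤ α * Real.log L →
        (2 : ℝ) ^ i < 3 ^ oc i (x + (j : ℕ)) * L} 1 x := by
  set N : Finset ℕ := (range L).filter (fun j : ℕ => ∀ i : ℕ, (i : ℝ) ≤ α * Real.log L →
    (2 : ℝ) ^ i < 3 ^ oc i (x + j) * L) with hN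
  have hsub : VV L t x ⊆ (range J).biUnion (fun i => VW (u i) (u (i + 1)) L t x) ∪
      N.image (fun j : ℕ => nx t x (0, (j : ℤ))) := by
    intro z hz
    unfold VV at hz
    obtain ⟨j, hj, rfl⟩ := mem_image.1 hz
    by_cases hjN : j ∈ N
    · exact mem_union_right _ (mem_image_of_mem _ hjN)
    · refine mem_union_left _ ?_
      rw [hN, mem_filter] at hjN
      push Not at hjN
      obtain ⟨i, hi1, hi2⟩ := hjN hj
      have hi3 : ct L i (x + j) := by
        unfold ct
        exact_mod_cast hi2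
      have hex : ∃ i, ct L i (x + j) := ⟨i, hi3⟩
      set k : ℕ := Nat.find hex with hk
      have hk1 : ct L k (x + j) := Nat.find_spec hex
      have hk2 : ∀ i < k, ¬ ct L i (x + j) := fun i hi => Nat.find_min hex hi
      have hki : k ≤ i := Nat.find_min' hex hi3
      have hkJ : k ≤ u J := by
        have : (k : ℝ) ≤ u J := le_trans (le_trans (by exact_mod_cast hki) hi1) huJ
        exact_mod_cast this
      have hk0 : u 0 < k := by
        by_contra hc
        push Not at hc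
        unfold ct at hk1
        have h1 : 2 ^ k ≤ 2 ^ u 0 := Nat.pow_le_pow_right (by norm_num) hc
        have h2 : 1 ≤ 3 ^ oc k (x + (j : ℤ)) := Nat.one_le_pow _ _ (by norm_num)
        have h3 : L ≤ 3 ^ oc k (x + (j : ℤ)) * L := Nat.le_mul_of_pos_left L h2
        omega
      obtain ⟨i', h1, h2, h3⟩ := find_win u k hk0 J hkJ
      rw [mem_biUnion]
      refine ⟨i', mem_range.2 h1, ?_⟩
      unfold VW
      refine mem_image_of_mem _ ?_
      unfold Ctr
      rw [mem_filter]
      exact ⟨hj, k, h2, h3, hk1, hk2⟩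
  have h1 := (card_le_card hsub).trans (card_union_le _ _)
  have h2 : ((range J).biUnion (fun i => VW (u i) (u (i + 1)) L t x)).card ≤
      ∑ i ∈ range J, (VW (u i) (u (i + 1)) L t x).card := card_biUnion_le
  have h3 : (N.image (fun j : ℕ => nx t x (0, (j : ℤ)))).card ≤ N.card := card_image_le
  have h4 : (N.card : ℝ) = ∑ j ∈ range L, Set.indicator {x : ℤ | ∀ i : ℕ, (i : ℝ) ≤ α * Real.log L →
        (2 : ℝ) ^ i < 3 ^ oc i (x + (j : ℕ)) * L} 1 x := by
    rw [hN, Finset.card_filter]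
    push_cast
    refine Finset.sum_congr rfl fun j _ => ?_
    rw [Set.indicator_apply]
    rfl
  rw [← h4]
  have h5 : ((VV L t x).card : ℝ) ≤ ((∑ i ∈ range J, (VW (u i) (u (i + 1)) L t x).card : ℕ) : ℝ) +
      (N.card : ℝ) := by
    exact_mod_cast h1.trans (Nat.add_le_add h2 h3)
  push_cast at h5
  exact h5

/-- one step of the Riemann sum -/
theorem riem {a b τ : ℝ} (hb : 0 < b) (hab : b ≤ a) (h : (a - b) / (2 * b) ≤ 2 * τ) :
    (a - b) / √b ≤ (2 + 2 * τ) * (√a - √b) := by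
  have ha : 0 < a := by linarith
  have hsb : 0 < √b := Real.sqrt_pos.2 hb
  have hsa : 0 < √a := Real.sqrt_pos.2 ha
  have ha2 : √a * √a = a := Real.mul_self_sqrt ha.le
  have hb2 : √b * √b = b := Real.mul_self_sqrt hb.le
  have hsab : √b ≤ √a := Real.sqrt_le_sqrt hab
  rw [div_le_iff₀ (by positivity)] at h
  rw [div_le_iff₀ hsb]
  -- `√a √b ≤ b + (a-b)/2 ≤ b + 2 τ b`
  have h1 : √a * √b ≤ b + (a - b) / 2 := by
    nlinarith [sq_nonneg (√a - √b)]
  have h2 : √a * √b ≤ (1 + 2 * τ) * b := by linarith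
  have h3 : √a ≤ (1 + 2 * τ) * √b := by
    have h4 : √a * √b ≤ ((1 + 2 * τ) * √b) * √b := by
      rw [mul_assoc, hb2]
      exact h2
    exact le_of_mul_le_mul_right h4 hsb
  have h5 : a - b = (√a - √b) * (√a + √b) := by
    linear_combination -ha2 + hb2
  rw [h5]
  have h6 : √a + √b ≤ (2 + 2 * τ) * √b := by linarith
  calc (√a - √b) * (√a + √b) ≤ (√a - √b) * ((2 + 2 * τ) * √b) :=
        mul_le_mul_of_nonneg_left h6 (by linarith)
    _ = (2 + 2 * τ) * (√a - √b) * √b := by ring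

theorem sqrt_add_one {x : ℝ} (hx : 0 ≤ x) : √(x + 1) ≤ √x + 1 := by
  apply Real.sqrt_le_iff.2
  refine ⟨by positivity, ?_⟩
  have := Real.sq_sqrt hx
  nlinarith [Real.sqrt_nonneg x]

theorem upM_aux (h1 : S_UpWin) {γ : ℝ} (hγ : IsG γ) (lam e : ℝ) (hlam : 0 < lam) (he : 0 < e)
    (he1 : e ≤ 1 / 2) : ∃ t₀ : ℕ, ∀ t : ℕ, t₀ ≤ t → ∀ L : ℕ, 1 ≤ L →
    lam * t ≤ Real.log L → γ * Real.log L ≤ (1 - e) * t →
    EE t (fun x => ((VV L t x).card : ℝ)) ≤ (1 + e) * MV γ L t := by
  obtain ⟨hκ0, hκ1⟩ := kap_bd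
  have hl2 : 0 < Real.log 2 := Real.log_pos (by norm_num)
  have hl2' := Real.log_two_gt_d9
  have hγ1 : 41 < γ := by linarith [hγ.1]
  have hil : 1 / Real.log 2 ≤ 2 := by
    rw [div_le_iff₀ hl2]
    linarith
  have hpi1 : 1 ≤ √Real.pi := Real.one_le_sqrt.2 (by linarith [Real.pi_gt_three])
  have hpi : 0 < √Real.pi := by linarith
  set P : ℝ := 4 * kap / √Real.pi with hP
  have hP0 : 0 < P := by positivity
  have hP2 : P ≤ 2 := by
    rw [hP, div_le_iff₀ hpi]
    linarith
  have hg : 0 < γ - 1 / Real.log 2 := by linarith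
  set c₀ : ℝ := P * ((γ - 1 / Real.log 2) * lam / 2) with hc₀
  have hc0 : 0 < c₀ := by positivity
  set τ : ℝ := min 1 (e * c₀ / 8) with hτ
  have hτ0 : 0 < τ := lt_min one_pos (by positivity)
  have hτ1 : τ ≤ 1 := min_le_left _ _
  have hτ2 : τ ≤ e * c₀ / 8 := min_le_right _ _
  set η : ℝ := min (e / 4) (e ^ 2 * c₀ / 16) with hη
  have hη0 : 0 < η := lt_min (by positivity) (by positivity)
  have hη1 : η ≤ e / 4 := min_le_left _ _
  have hη2 : η ≤ e ^ 2 * c₀ / 16 := min_le_right _ _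
  obtain ⟨J, hJ⟩ := exists_nat_ge (max 1 (1 / (e * τ)))
  have hJ1 : (1 : ℝ) ≤ J := (le_max_left _ _).trans hJ
  have hJ1' : 1 ≤ J := by exact_mod_cast hJ1
  have hJ0 : (0 : ℝ) < J := by linarith
  have hJ2 : 1 / (e * τ) ≤ J := (le_max_right _ _).trans hJ
  set ε' : ℝ := min (e / 2) (e * c₀ / (4 * J)) with hε'
  have hε0 : 0 < ε' := lt_min (by positivity) (by positivity)
  have hε1 : ε' ≤ e / 2 := min_le_left _ _
  have hε2 : J * ε' ≤ e * c₀ / 4 := by
    have h5 : ε' ≤ e * c₀ / (4 * J) := min_le_right _ _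
    calc J * ε' ≤ J * (e * c₀ / (4 * J)) := mul_le_mul_of_nonneg_left h5 hJ0.le
      _ = e * c₀ / 4 := by field_simp
  obtain ⟨C, hC, htilt⟩ := tilt_up (α := γ + η) ((gamma_ge hγ).trans (by linarith))
  obtain ⟨t₁, hwin⟩ := h1 ε' hε0
  obtain ⟨N₁, hN₁⟩ := exists_nat_ge ((4 * (1 + 1 / e) + C) / (e * c₀ / 4))
  obtain ⟨t₂, ht₂⟩ := exists_nat_ge (max (8 / e) (1 / (e * τ)))
  refine ⟨max (N₁ ^ 2) (max t₁ (max t₂ 1)), fun t ht L hL hlamL hγL => ?_⟩
  have a1 : N₁ ^ 2 ≤ t := (le_max_left _ _).trans ht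
  have a2 : t₁ ≤ t := ((le_max_left _ _).trans (le_max_right _ _)).trans ht
  have a3 : t₂ ≤ t := ((le_max_left _ _).trans ((le_max_right _ _).trans (le_max_right _ _))).trans ht
  have a4 : 1 ≤ t := ((le_max_right _ _).trans ((le_max_right _ _).trans (le_max_right _ _))).trans ht
  have ht1 : (1 : ℝ) ≤ t := by exact_mod_cast a4
  have ht0 : (0 : ℝ) < t := by linarith
  have hst1 : 1 ≤ √(t : ℝ) := Real.one_le_sqrt.2 ht1
  have hst0 : 0 < √(t : ℝ) := by linarith
  have hss : √(t : ℝ) * √(t : ℝ) = t := Real.mul_self_sqrt ht0.le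
  have hNt : (N₁ : ℝ) ≤ √t := by
    apply Real.le_sqrt_of_sq_le
    exact_mod_cast a1
  have b1 : (4 * (1 + 1 / e) + C) / (e * c₀ / 4) ≤ √t := hN₁.trans hNt
  have b2 : 8 / e ≤ (t : ℝ) := ((le_max_left _ _).trans ht₂).trans (by exact_mod_cast a3)
  have b3 : 1 / (e * τ) ≤ (t : ℝ) := ((le_max_right _ _).trans ht₂).trans (by exact_mod_cast a3)
  set l : ℝ := Real.log L with hl
  have hl0 : 0 < l := lt_of_lt_of_le (by positivity) hlamL
  have hL2 : 2 ≤ L := by
    rcases Nat.lt_or_ge L 2 with h | h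
    · exfalso
      have : L = 1 := by omega
      rw [hl, this, Nat.cast_one, Real.log_one] at hl0
      exact lt_irrefl _ hl0
    · exact h
  have hL0 : (0 : ℝ) < L := by exact_mod_cast (by omega : 0 < L)
  have het0 : 0 < e * t := mul_pos he ht0
  have hlt : l ≤ t := by
    have h10 : 1 * l ≤ γ * l := mul_le_mul_of_nonneg_right (by linarith only [hγ1]) hl0.le
    linarith only [het0, h10, hγL]
  -- the times
  set u₀ : ℕ := ⌈l / Real.log 2⌉₊ - 1 with hu₀
  set uJ : ℕ := ⌈(γ + η) * l⌉₊ with huJ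
  have hceil : 1 ≤ ⌈l / Real.log 2⌉₊ := Nat.one_le_ceil_iff.2 (by positivity)
  have hu01 : (u₀ : ℝ) < l / Real.log 2 := by
    have h5 : u₀ < ⌈l / Real.log 2⌉₊ := by omega
    exact Nat.lt_ceil.1 h5
  have hu02 : l / Real.log 2 - 1 ≤ u₀ := by
    have h5 := Nat.le_ceil (l / Real.log 2)
    have h6 : ((⌈l / Real.log 2⌉₊ : ℕ) : ℝ) = (u₀ : ℝ) + 1 := by
      rw [hu₀, Nat.cast_sub hceil]
      push_cast
      ring
    linarith
  have hpow : 2 ^ u₀ < L := by
    have h5 : (u₀ : ℝ) * Real.log 2 < l := by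
      rwa [lt_div_iff₀ hl2] at hu01
    have h6 : ((2 ^ u₀ : ℕ) : ℝ) < L := by
      rw [← Real.log_lt_log_iff (by positivity) hL0]
      push_cast
      rw [Real.log_pow]
      exact h5
    exact_mod_cast h6
  have huJ1 : (γ + η) * l ≤ uJ := Nat.le_ceil _
  have huJ2 : (uJ : ℝ) ≤ (γ + η) * l + 1 := (Nat.ceil_lt_add_one (by positivity)).le
  have hηl : η * l ≤ e / 4 * t := mul_le_mul hη1 hlt hl0.le (by positivity)
  have het : 2 ≤ e / 4 * t := by
    rw [div_le_iff₀ he] at b2
    linarith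
  have huJt : (uJ : ℝ) ≤ (1 - e / 2) * t := by
    have : (γ + η) * l = γ * l + η * l := by ring
    linarith only [huJ2, this, hηl, het, hγL]
  have hu0J : u₀ ≤ uJ := by
    have : (u₀ : ℝ) ≤ uJ := by
      have h5 : l / Real.log 2 = 1 / Real.log 2 * l := by ring
      have h6 : 1 / Real.log 2 * l ≤ (γ + η) * l := mul_le_mul_of_nonneg_right (by linarith) hl0.le
      linarith
    exact_mod_cast this
  set D : ℕ := uJ - u₀ with hD
  have hDt : (D : ℝ) ≤ t := by
    rw [hD, Nat.cast_sub hu0J]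
    have : (0 : ℝ) ≤ u₀ := Nat.cast_nonneg _
    linarith only [huJt, this, het0]
  set u : ℕ → ℕ := fun i => u₀ + i * D / J with hu
  have hu_0 : u 0 = u₀ := by simp [hu]
  have hu_J : u J = uJ := by
    show u₀ + J * D / J = uJ
    rw [Nat.mul_div_cancel_left D (by omega)]
    omega
  have humono : Monotone u := by
    intro i i' hii
    show u₀ + i * D / J ≤ u₀ + i' * D / J
    exact Nat.add_le_add_left (Nat.div_le_div_right (Nat.mul_le_mul_right D hii)) _
  have hustep : ∀ i, (u (i + 1) : ℝ) - u i ≤ D / J + 1 := by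
    intro i
    have g1 : (((i + 1) * D / J : ℕ) : ℝ) ≤ (((i + 1) * D : ℕ) : ℝ) / J := Nat.cast_div_le
    have g2 : ((i * D : ℕ) : ℝ) / J < ((i * D / J : ℕ) : ℝ) + 1 := by
      rw [div_lt_iff₀ hJ0]
      have := Nat.lt_div_mul_add (a := i * D) (b := J) (by omega)
      have h5 : i * D < (i * D / J + 1) * J := by
        rw [add_mul, one_mul]
        exact this
      exact_mod_cast h5
    have g3 : (u (i + 1) : ℝ) = u₀ + (((i + 1) * D / J : ℕ) : ℝ) := by
      show (((u₀ + (i + 1) * D / J : ℕ)) : ℝ) = _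
      push_cast
      ring
    have g4 : (u i : ℝ) = u₀ + ((i * D / J : ℕ) : ℝ) := by
      show (((u₀ + i * D / J : ℕ)) : ℝ) = _
      push_cast
      ring
    rw [g3, g4]
    have g5 : (((i + 1) * D : ℕ) : ℝ) / J = ((i * D : ℕ) : ℝ) / J + D / J := by
      push_cast
      ring
    linarith
  have hule : ∀ i, i ≤ J → (u i : ℝ) ≤ (1 - e / 2) * t := by
    intro i hi
    have : u i ≤ uJ := by
      rw [← hu_J]
      exact humono hi
    exact le_trans (by exact_mod_cast this) huJt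
  -- the split
  have hsplit : EE t (fun x => ((VV L t x).card : ℝ)) ≤
      ∑ i ∈ range J, EE t (fun x => ((VW (u i) (u (i + 1)) L t x).card : ℝ)) +
      ∑ j ∈ range L, EE t (fun x => Set.indicator {x : ℤ | ∀ i : ℕ, (i : ℝ) ≤ (γ + η) * Real.log L →
        (2 : ℝ) ^ i < 3 ^ oc i (x + (j : ℕ)) * L} 1 x) := by
    have h5 := EE_mono t (fun x => VV_split (t := t) (J := J) (α := γ + η) hL u (by rw [hu_0]; exact hpow)
      (by rw [hu_J]; exact huJ1) x)
    rw [EE_add, EE_sum, EE_sum] at h5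
    exact h5
  have hrest : ∑ j ∈ range L, EE t (fun x => Set.indicator {x : ℤ | ∀ i : ℕ, (i : ℝ) ≤ (γ + η) * Real.log L →
        (2 : ℝ) ^ i < 3 ^ oc i (x + (j : ℕ)) * L} 1 x) ≤ C := by
    have h5 : ∀ j ∈ range L, EE t (fun x => Set.indicator {x : ℤ | ∀ i : ℕ, (i : ℝ) ≤ (γ + η) * Real.log L →
        (2 : ℝ) ^ i < 3 ^ oc i (x + (j : ℕ)) * L} 1 x) ≤ C * (L : ℝ)⁻¹ := by
      intro j _
      refine (htilt L hL2 t ?_ (j : ℤ)).trans ?_
      · have h6 : (γ + η) * Real.log L ≤ (1 - e / 2) * t := huJ1.trans huJt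
        have h7 : (1 - e / 2) * (t : ℝ) ≤ t := by linarith only [het0]
        linarith
      · refine mul_le_mul_of_nonneg_left ?_ hC.le
        rw [← Real.rpow_neg_one]
        refine Real.rpow_le_rpow_of_exponent_le (by exact_mod_cast hL) ?_
        have h6 := FF_neg hγ (show γ < γ + η by linarith)
        have h7 : (γ + η) * FF (rr (γ + η)) ≤ 0 :=
          mul_nonpos_of_nonneg_of_nonpos (by linarith) h6.le
        linarith
    refine (Finset.sum_le_sum h5).trans ?_
    rw [Finset.sum_const, card_range, nsmul_eq_mul]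
    apply le_of_eq
    field_simp
  -- windows
  have hwins : ∀ i ∈ range J, EE t (fun x => ((VW (u i) (u (i + 1)) L t x).card : ℝ)) ≤
      P * (1 + τ) * (√((t : ℝ) - u i) - √((t : ℝ) - u (i + 1))) + ε' * √t := by
    intro i hi
    rw [mem_range] at hi
    have g1 := hwin t a2 L hL hlt (u i) (u (i + 1)) (humono (by omega)) (by
      refine (hule (i + 1) (by omega)).trans (mul_le_mul_of_nonneg_right (by linarith) ht0.le))
    refine g1.trans (add_le_add_left ?_ _)
    have g2 : (u i : ℝ) ≤ u (i + 1) := by exact_mod_cast humono (show i ≤ i + 1 by omega)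
    have g3 := hule (i + 1) (by omega)
    have g4 : e / 2 * t ≤ (t : ℝ) - u (i + 1) := by linarith
    have g5 : 0 < (t : ℝ) - u (i + 1) := lt_of_lt_of_le (by positivity) g4
    have g6 : (((t : ℝ) - u i) - ((t : ℝ) - u (i + 1))) / (2 * ((t : ℝ) - u (i + 1))) ≤ 2 * τ := by
      rw [div_le_iff₀ (by positivity)]
      have g7 := hustep i
      have g8 : (D : ℝ) / J ≤ τ * (e * t) := by
        rw [div_le_iff₀ hJ0]
        have g9 : 1 ≤ J * (e * τ) := by
          rwa [div_le_iff₀ (by positivity)] at hJ2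
        have g10 : (t : ℝ) * 1 ≤ t * (J * (e * τ)) := mul_le_mul_of_nonneg_left g9 ht0.le
        linarith
      have g9 : 1 ≤ τ * (e * t) := by
        rw [div_le_iff₀ (by positivity)] at b3
        linarith
      have g10 : τ * (e / 2 * t) ≤ τ * ((t : ℝ) - u (i + 1)) := mul_le_mul_of_nonneg_left g4 hτ0.le
      linarith
    have g7 := riem g5 (show (t : ℝ) - u (i + 1) ≤ (t : ℝ) - u i by linarith) g6
    have g8 : 2 / √Real.pi * (kap * ((u (i + 1) : ℝ) - u i) / √((t : ℝ) - u (i + 1))) =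
        P / 2 * ((((t : ℝ) - u i) - ((t : ℝ) - u (i + 1))) / √((t : ℝ) - u (i + 1))) := by
      rw [hP]
      ring
    rw [g8]
    have g9 := mul_le_mul_of_nonneg_left g7 (show 0 ≤ P / 2 by positivity)
    refine g9.trans (le_of_eq ?_)
    ring
  have hsum := Finset.sum_le_sum hwins
  rw [Finset.sum_add_distrib, ← Finset.mul_sum, Finset.sum_range_sub' (fun i => √((t : ℝ) - u i)),
    Finset.sum_const, card_range, nsmul_eq_mul, hu_0, hu_J] at hsum
  -- comparison of the end points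
  have hE1 : √((t : ℝ) - u₀) ≤ √((t : ℝ) - l / Real.log 2) + 1 := by
    have h5 : 0 ≤ (t : ℝ) - l / Real.log 2 := by
      have h6 : l / Real.log 2 = 1 / Real.log 2 * l := by ring
      have h7 : 1 / Real.log 2 * l ≤ γ * l := mul_le_mul_of_nonneg_right (by linarith) hl0.le
      have h8 : (1 - e) * (t : ℝ) ≤ t := by linarith only [het0]
      linarith
    refine le_trans (Real.sqrt_le_sqrt ?_) (sqrt_add_one h5)
    linarith
  set y : ℝ := (t : ℝ) - γ * l with hy
  set z : ℝ := (t : ℝ) - uJ with hz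
  have hy1 : e * t ≤ y := by rw [hy]; linarith
  have hy0 : 0 < y := lt_of_lt_of_le (by positivity) hy1
  have hz0 : 0 < z := lt_of_lt_of_le (show 0 < e / 2 * t by positivity) (by rw [hz]; linarith)
  have hyz : y - z ≤ η * t + 1 := by
    have h5 : η * l ≤ η * t := mul_le_mul_of_nonneg_left hlt hη0.le
    have h6 : (γ + η) * l = γ * l + η * l := by ring
    rw [hy, hz]
    linarith
  have hzy : z ≤ y := by
    have h6 : (γ + η) * l = γ * l + η * l := by ring
    have h7 : 0 ≤ η * l := by positivity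
    rw [hy, hz]
    linarith
  have hE2 : √y - √z ≤ η / e * √t + 1 / e := by
    have hsy : e * √t ≤ √y := by
      apply Real.le_sqrt_of_sq_le
      rw [mul_pow, Real.sq_sqrt ht0.le]
      have : e ^ 2 * t ≤ e * t := mul_le_mul_of_nonneg_right (by
        have h13 := mul_le_mul_of_nonneg_left (show e ≤ 1 by linarith only [he1]) he.le
        linarith only [h13]) ht0.le
      linarith
    have hsy0 : 0 < √y := Real.sqrt_pos.2 hy0
    have h5 : (√y - √z) * √y ≤ η * t + 1 := by
      have g1 : √y * √y = y := Real.mul_self_sqrt hy0.le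
      have g2 : √z * √z = z := Real.mul_self_sqrt hz0.le
      have g3 : √z ≤ √y := Real.sqrt_le_sqrt hzy
      have g4 : √z * √z ≤ √z * √y := mul_le_mul_of_nonneg_left g3 (Real.sqrt_nonneg _)
      linarith
    have h6 : 0 ≤ √y - √z := by
      have : √z ≤ √y := Real.sqrt_le_sqrt hzy
      linarith
    have h7 : (√y - √z) * (e * √t) ≤ η * t + 1 := (mul_le_mul_of_nonneg_left hsy h6).trans h5
    have h8 : (√y - √z) ≤ (η * t + 1) / (e * √t) := by
      rw [le_div_iff₀ (by positivity)]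
      exact h7
    refine h8.trans ?_
    rw [add_div]
    have h9 : η * t / (e * √t) = η / e * √t := by
      nth_rewrite 1 [← hss]
      field_simp
    have h10 : 1 / (e * √t) ≤ 1 / e := by
      apply one_div_le_one_div_of_le he
      have := mul_le_mul_of_nonneg_left hst1 he.le
      linarith
    linarith
  -- the main term
  set M' : ℝ := √((t : ℝ) - l / Real.log 2) - √y with hM'
  have hMV : MV γ L t = 1 + P * M' := by
    unfold MV
    rfl
  have ha0 : 0 ≤ (t : ℝ) - l / Real.log 2 := by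
    have h6 : l / Real.log 2 = 1 / Real.log 2 * l := by ring
    have h7 : 1 / Real.log 2 * l ≤ γ * l := mul_le_mul_of_nonneg_right (by linarith) hl0.le
    rw [hy] at hy0
    linarith
  have hM1 : (γ - 1 / Real.log 2) * lam / 2 * √t ≤ M' := by
    have g1 : √((t : ℝ) - l / Real.log 2) * √((t : ℝ) - l / Real.log 2) = (t : ℝ) - l / Real.log 2 :=
      Real.mul_self_sqrt ha0
    have g2 : √y * √y = y := Real.mul_self_sqrt hy0.le
    have g3 : √((t : ℝ) - l / Real.log 2) ≤ √t := by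
      apply Real.sqrt_le_sqrt
      have : 0 ≤ l / Real.log 2 := by positivity
      linarith
    have g4 : √y ≤ √t := by
      apply Real.sqrt_le_sqrt
      have : 0 ≤ γ * l := by positivity
      rw [hy]
      linarith
    have g5 : 0 ≤ M' := by
      rw [hM']
      have : √y ≤ √((t : ℝ) - l / Real.log 2) := by
        apply Real.sqrt_le_sqrt
        have h6 : l / Real.log 2 = 1 / Real.log 2 * l := by ring
        have h7 : 1 / Real.log 2 * l ≤ γ * l := mul_le_mul_of_nonneg_right (by linarith) hl0.le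
        rw [hy]
        linarith
      linarith
    have g6 : M' * (√((t : ℝ) - l / Real.log 2) + √y) = (γ - 1 / Real.log 2) * l := by
      rw [hM']
      have : (√((t : ℝ) - l / Real.log 2) - √y) * (√((t : ℝ) - l / Real.log 2) + √y) =
          √((t : ℝ) - l / Real.log 2) * √((t : ℝ) - l / Real.log 2) - √y * √y := by ring
      rw [this, g1, g2, hy]
      ring
    have g7 : M' * (√((t : ℝ) - l / Real.log 2) + √y) ≤ M' * (2 * √t) :=
      mul_le_mul_of_nonneg_left (by linarith) g5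
    have g8 : (γ - 1 / Real.log 2) * (lam * t) ≤ (γ - 1 / Real.log 2) * l :=
      mul_le_mul_of_nonneg_left hlamL hg.le
    have g9 : (γ - 1 / Real.log 2) * lam / 2 * √t * (2 * √t) ≤ M' * (2 * √t) := by
      have : (γ - 1 / Real.log 2) * lam / 2 * √t * (2 * √t) = (γ - 1 / Real.log 2) * (lam * (√t * √t)) := by
        ring
      rw [this, hss]
      linarith
    exact le_of_mul_le_mul_right g9 (by positivity)
  have hM2 : c₀ * √t ≤ P * M' := by
    rw [hc₀]
    have := mul_le_mul_of_nonneg_left hM1 hP0.le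
    linarith
  have hM3 : M' ≤ √t := by
    have g3 : √((t : ℝ) - l / Real.log 2) ≤ √t := by
      apply Real.sqrt_le_sqrt
      have : 0 ≤ l / Real.log 2 := by positivity
      linarith
    have := Real.sqrt_nonneg y
    rw [hM']
    linarith
  have hM0 : 0 ≤ M' := le_trans (by positivity) hM1
  -- total
  have hS : √((t : ℝ) - u₀) - √z ≤ M' + 1 + 1 / e + η / e * √t := by
    rw [hM']
    linarith
  have f1 : P * (1 + τ) * (√((t : ℝ) - u₀) - √z) ≤
      P * (1 + τ) * (M' + 1 + 1 / e + η / e * √t) :=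
    mul_le_mul_of_nonneg_left hS (by positivity)
  have f2 : P * (1 + τ) * (M' + 1 + 1 / e + η / e * √t) ≤
      P * M' + 2 * τ * √t + 4 * (1 + 1 / e) + 4 * (η / e) * √t := by
    have k1 : P * τ * M' ≤ 2 * τ * √t := by
      have : P * τ ≤ 2 * τ := mul_le_mul_of_nonneg_right hP2 hτ0.le
      exact mul_le_mul this hM3 hM0 (by positivity)
    have k2 : P * (1 + τ) ≤ 4 := by
      have h13 := mul_le_mul hP2 (show 1 + τ ≤ 2 by linarith only [hτ1])
        (show 0 ≤ 1 + τ by linarith only [hτ0]) (show (0 : ℝ) ≤ 2 by norm_num)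
      linarith only [h13]
    have k3 : P * (1 + τ) * (1 + 1 / e + η / e * √t) ≤ 4 * (1 + 1 / e + η / e * √t) :=
      mul_le_mul_of_nonneg_right k2 (by positivity)
    have k4 : P * (1 + τ) * (M' + 1 + 1 / e + η / e * √t) =
        P * M' + P * τ * M' + P * (1 + τ) * (1 + 1 / e + η / e * √t) := by ring
    rw [k4]
    linarith
  have f3 : 2 * τ * √t ≤ e * c₀ / 4 * √t := mul_le_mul_of_nonneg_right (by linarith) hst0.le
  have f4 : 4 * (η / e) * √t ≤ e * c₀ / 4 * √t := by
    refine mul_le_mul_of_nonneg_right ?_ hst0.le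
    have : 4 * (η / e) = 4 * η / e := by ring
    rw [this, div_le_iff₀ he]
    linarith only [hη2]
  have f5 : J * (ε' * √t) ≤ e * c₀ / 4 * √t := by
    have := mul_le_mul_of_nonneg_right hε2 hst0.le
    linarith
  have f6 : 4 * (1 + 1 / e) + C ≤ e * c₀ / 4 * √t := by
    rw [div_le_iff₀ (by positivity)] at b1
    linarith
  have f7 : e * (c₀ * √t) ≤ e * (P * M') := mul_le_mul_of_nonneg_left hM2 he.le
  rw [hMV]
  have f8 : (1 + e) * (1 + P * M') = 1 + P * M' + e + e * (P * M') := by ring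
  rw [f8]
  have f9 : e * c₀ / 4 * √t * 4 = e * (c₀ * √t) := by ring
  linarith only [hsplit, hrest, hsum, f1, f2, f3, f4, f5, f6, f7, f9, he]

/-- **JOB UpM** -/
theorem upM (h1 : S_UpWin) (h2 : S_Top) (h3 : S_LDup) : S_UpM := by
  intro γ hγ lam ε hlam hε
  obtain ⟨t₀, ht₀⟩ := upM_aux h1 hγ lam (min ε (1 / 2)) hlam (lt_min hε (by norm_num)) (min_le_right _ _)
  refine ⟨max t₀ 1, fun t ht L hL h4 h5 => ?_⟩
  have ht' : t₀ ≤ t := (le_max_left _ _).trans ht
  have h6 := ht₀ t ht' L hL h4 (h5.trans (mul_le_mul_of_nonneg_right (by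
    have := min_le_left ε (1 / 2)
    linarith) (Nat.cast_nonneg t)))
  refine h6.trans (mul_le_mul_of_nonneg_right (by
    have := min_le_left ε (1 / 2)
    linarith) ?_)
  unfold MV
  obtain ⟨hκ0, hκ1⟩ := kap_bd
  have hl2 : 0 < Real.log 2 := Real.log_pos (by norm_num)
  have hl0 : 0 ≤ Real.log L := Real.log_nonneg (by exact_mod_cast hL)
  have hγ1 : 41 < γ := by linarith [hγ.1]
  have hl2' := Real.log_two_gt_d9
  have h7 : √((t : ℝ) - γ * Real.log L) ≤ √((t : ℝ) - Real.log L / Real.log 2) := by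
    apply Real.sqrt_le_sqrt
    have h8 : Real.log L / Real.log 2 ≤ γ * Real.log L := by
      rw [div_le_iff₀ hl2]
      have h9 : 41 * Real.log 2 ≤ γ * Real.log 2 := mul_le_mul_of_nonneg_right hγ1.le hl2.le
      have h10 : 1 ≤ γ * Real.log 2 := by linarith only [h9, hl2']
      have h11 := mul_le_mul_of_nonneg_left h10 hl0
      linarith only [h11]
    linarith only [h8]
  have h8 : 0 ≤ 4 * kap / √Real.pi := by positivity
  have := mul_nonneg h8 (sub_nonneg.2 h7)
  linarith

end Pool.Agent.Q137.BT
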