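import Pool.Agent.Q74.BT.Stm7
import Pool.Agent.Q190.BT.Many
import Pool.Agent.Q261.BT.MeanUp
import Pool.Agent.Q74.BT.Gam

/-!
# Project BT, part 6, job UpWin: the mean number of forms from a window of contraction times
-/

set_option autoImplicit false
set_option linter.unusedVariables false

namespace Pool.Agent.Q137.BT

open Finset Pool.Agent.Q74.BT Pool.Agent.Q195.BT
open Pool.Agent.Q158.Pair (T)
open Pool.Agent.Q74.AR (oc oc_per oc_le bE)
open Pool.Agent.Q74.KP (EE Erf EE_mono EE_add EE_mul EE_const EE_nonneg EE_sum oc_add)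
open Pool.Agent.Q74.BL (nx ww nx_add nx_zero EE_split)
open Pool.Agent.Q38.BT (wv wv_nonneg GG GG_mean GG_nonneg GG_ge)
open Pool.Agent.Q190.BT (oc_mono wv_tau ph ph_nonneg ph_ge bE_ph log_half log_quot_lt_one small)
open Pool.Agent.Q261.BT (offsets' card_far card_split)
open scoped Classical

theorem kap_bd : 0 < kap ∧ kap ≤ 1 / 2 := by
  unfold kap
  have h1 := log_half
  have h2 := log_quot_lt_one
  constructor <;> linarith

/-! ### windows -/

theorem ct_per {L k s : ℕ} (hk : k ≤ s) (N y : ℤ) : ct L k (2 ^ s * N + y) ↔ ct L k y := by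
  unfold ct
  have e : 2 ^ s * N + y = y + 2 ^ k * (2 ^ (s - k) * N) := by
    rw [← mul_assoc, ← pow_add, Nat.add_sub_cancel' hk]
    ring
  rw [e, oc_per]

theorem Ctr_per {u₁ u₂ L s : ℕ} (hs : u₂ ≤ s) (N x : ℤ) :
    Ctr u₁ u₂ L (2 ^ s * N + x) = Ctr u₁ u₂ L x := by
  unfold Ctr
  ext j
  rw [mem_filter, mem_filter]
  refine and_congr_right fun _ => ?_
  constructor
  · rintro ⟨k, h1, h2, h3, h4⟩
    rw [add_assoc, ct_per (h2.trans hs)] at h3
    refine ⟨k, h1, h2, h3, fun i hi h5 => h4 i hi ?_⟩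
    rw [add_assoc, ct_per (by omega)]
    exact h5
  · rintro ⟨k, h1, h2, h3, h4⟩
    refine ⟨k, h1, h2, ?_, fun i hi h5 => h4 i hi ?_⟩
    · rw [add_assoc, ct_per (h2.trans hs)]
      exact h3
    · rw [add_assoc, ct_per (by omega)] at h5
      exact h5

theorem VW_add {u₁ u₂ L s : ℕ} (hs : u₂ ≤ s) (r : ℕ) (x N : ℤ) :
    VW u₁ u₂ L (s + r) (2 ^ s * N + x) = (VW u₁ u₂ L s x).image (nx r N) := by
  unfold VW
  rw [image_image, Ctr_per hs]
  congr 1
  funext j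
  rw [Function.comp_apply, nx_add]

/-- the trajectories of a window at the contraction time -/
theorem ctr_facts {u₁ u₂ L : ℕ} (hL : 1 ≤ L) {x : ℤ} {j : ℕ} (hj : j ∈ Ctr u₁ u₂ L x) :
    ∃ k, u₁ < k ∧ k ≤ u₂ ∧
      (oc k (x + j) : ℝ) - k / 2 ≤ kap * k - Real.log L * (1 / Real.log 3) ∧
      kap * k - Real.log L * (1 / Real.log 3) - 1 ≤ (oc k (x + j) : ℝ) - k / 2 ∧
      wv x (x + j) k ≤ ((u₂ + 1 : ℕ) : ℝ) := by
  unfold Ctr at hj
  rw [mem_filter, mem_range] at hj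
  obtain ⟨hjL, k, hk1, hk2, hct, hmin⟩ := hj
  have hL0 : (0 : ℝ) < L := by exact_mod_cast hL
  have hl3 : 0 < Real.log 3 := Real.log_pos (by norm_num)
  have hl2 : 0 < Real.log 2 := Real.log_pos (by norm_num)
  have hct' : 3 ^ oc k (x + j) * (L : ℝ) ≤ 2 ^ k := by
    unfold ct at hct
    exact_mod_cast hct
  have hmin' : ∀ i < k, (2 : ℝ) ^ i < 3 ^ oc i (x + j) * L := by
    intro i hi
    have := hmin i hi
    unfold ct at this
    rw [not_le] at this
    exact_mod_cast this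
  refine ⟨k, hk1, hk2, ?_⟩
  obtain ⟨k', hk'⟩ := Nat.exists_eq_succ_of_ne_zero (show k ≠ 0 by omega)
  set l : ℝ := Real.log L with hl
  have ha1 : (oc k (x + j) : ℝ) * Real.log 3 + l ≤ k * Real.log 2 := by
    have h3 := Real.log_le_log (by positivity) hct'
    rw [Real.log_pow, Real.log_mul (by positivity) hL0.ne', Real.log_pow, ← hl] at h3
    exact h3
  have ha2 : (k : ℝ) * Real.log 2 - Real.log 2 < (oc k (x + j) : ℝ) * Real.log 3 + l := by
    have h3 := hmin' k' (by omega)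
    have h4 : (3 : ℝ) ^ oc k' (x + j) * L ≤ 3 ^ oc k (x + j) * L := by
      have := oc_mono (show k' ≤ k by omega) (x + (j : ℤ))
      gcongr
      norm_num
    have h5 := Real.log_lt_log (by positivity) (lt_of_lt_of_le h3 h4)
    rw [Real.log_pow, Real.log_mul (by positivity) hL0.ne', Real.log_pow, ← hl] at h5
    have hkk : (k : ℝ) = k' + 1 := by
      rw [hk']
      push_cast
      rfl
    have hkm : (k : ℝ) * Real.log 2 = k' * Real.log 2 + Real.log 2 := by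
      rw [hkk]
      ring
    linarith
  set a : ℝ := (oc k (x + j) : ℝ) with ha
  set q : ℝ := Real.log 2 / Real.log 3 with hq
  have hkap : kap = q - 1 / 2 := rfl
  have hq1 : 1 / 2 < q := log_half
  have hq2 : q < 1 := log_quot_lt_one
  have ha3 : a ≤ k * q - l * (1 / Real.log 3) := by
    have : a * Real.log 3 ≤ (k * q - l * (1 / Real.log 3)) * Real.log 3 := by
      rw [hq]
      field_simp
      linarith
    exact le_of_mul_le_mul_right this hl3
  have ha4 : k * q - l * (1 / Real.log 3) - 1 ≤ a := by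
    have h5 : (k * q - l * (1 / Real.log 3) - q) * Real.log 3 ≤ a * Real.log 3 := by
      rw [hq]
      field_simp
      linarith
    have := le_of_mul_le_mul_right h5 hl3
    linarith
  refine ⟨?_, ?_, ?_⟩
  · rw [hkap]
    linarith
  · rw [hkap]
    linarith
  · have h6 := wv_tau x j k L hL0 hmin'
    have h7 : (3 : ℝ) ^ oc k (x + j) / 2 ^ k ≤ 1 / L := by
      rw [div_le_div_iff₀ (by positivity) hL0]
      linarith
    have h8 : (j : ℝ) ≤ L := by exact_mod_cast hjL.le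
    have h9 : (3 : ℝ) ^ oc k (x + j) / 2 ^ k * (j + L * k / 3) ≤ 1 / L * (L + L * k / 3) := by
      gcongr
    have h10 : 1 / (L : ℝ) * (L + L * k / 3) = 1 + k / 3 := by
      field_simp
    have h11 : (k : ℝ) ≤ u₂ := by exact_mod_cast hk2
    have h12 : (0 : ℝ) ≤ k := Nat.cast_nonneg k
    push_cast
    linarith

/-- the union bound for the deviations -/
noncomputable def fd (s h : ℝ) (u₂ v : ℕ) (x : ℤ) : ℝ :=
  ∑ k ∈ range (u₂ + 1), GG (ph s h (v - k)) (u₂ + 1) v k x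

theorem fd_nonneg (s h : ℝ) (u₂ v : ℕ) (x : ℤ) : 0 ≤ fd s h u₂ v x :=
  sum_nonneg fun k _ => GG_nonneg (fun m => ph_nonneg s h (v - k) m) (u₂ + 1) v k x

/-- the range of the levels -/
theorem VW_range {u₁ u₂ L v : ℕ} (hL : 1 ≤ L) (hu : u₁ ≤ u₂) (hv : u₂ ≤ v) {s h : ℝ} (hs : 0 ≤ s)
    (hh : 0 ≤ h) (x : ℤ) : ∀ z ∈ VW u₁ u₂ L v x, ∀ z' ∈ VW u₁ u₂ L v x,
    (z'.1 : ℝ) - z.1 ≤ kap * ((u₂ : ℝ) - u₁) + 1 + 2 * h + v * fd s h u₂ v x := by
  intro z hz z' hz'
  unfold VW at hz hz'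
  obtain ⟨j, hj, rfl⟩ := mem_image.1 hz
  obtain ⟨j', hj', rfl⟩ := mem_image.1 hz'
  rw [nx_fst, nx_fst]
  obtain ⟨k, hk1, hk2, hk3, hk4, hk5⟩ := ctr_facts hL hj
  obtain ⟨k', hk1', hk2', hk3', hk4', hk5'⟩ := ctr_facts hL hj'
  obtain ⟨hκ0, hκ1⟩ := kap_bd
  have hf := fd_nonneg s h u₂ v x
  have huu : (u₁ : ℝ) ≤ u₂ := by exact_mod_cast hu
  have hcov : ∀ (i : ℕ) (k : ℕ), k ≤ u₂ → wv x (x + i) k ≤ ((u₂ + 1 : ℕ) : ℝ) →
      h ≤ |((oc (v - k) (T^[k] (x + i)) : ℕ) : ℝ) - ((v - k : ℕ) : ℝ) / 2| → 1 ≤ fd s h u₂ v x := by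
    intro i k hk hw hdev
    have h13 := GG_ge (fun m => ph_nonneg s h (v - k) m) (u₂ + 1) v k (hk.trans hv) x i hw
    have h14 := ph_ge hs hdev
    have h15 : GG (ph s h (v - k)) (u₂ + 1) v k x ≤ fd s h u₂ v x :=
      single_le_sum (f := fun k => GG (ph s h (v - k)) (u₂ + 1) v k x)
        (fun k _ => GG_nonneg (fun m => ph_nonneg s h (v - k) m) (u₂ + 1) v k x)
        (mem_range.2 (by omega))
    linarith
  have hv0 : (0 : ℝ) ≤ v := Nat.cast_nonneg v
  have hmain0 : 0 ≤ kap * ((u₂ : ℝ) - u₁) := mul_nonneg hκ0.le (by linarith)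
  have hbad : 1 ≤ fd s h u₂ v x → (oc v (x + j') : ℝ) - (oc v (x + j) : ℝ) ≤
      kap * ((u₂ : ℝ) - u₁) + 1 + 2 * h + v * fd s h u₂ v x := by
    intro h1
    have c1 : (oc v (x + j') : ℝ) ≤ v := by exact_mod_cast oc_le v (x + j')
    have c2 : (0 : ℝ) ≤ (oc v (x + j) : ℝ) := Nat.cast_nonneg _
    have c3 : (v : ℝ) * 1 ≤ v * fd s h u₂ v x := mul_le_mul_of_nonneg_left h1 hv0
    linarith
  by_cases hb : h ≤ |((oc (v - k) (T^[k] (x + j)) : ℕ) : ℝ) - ((v - k : ℕ) : ℝ) / 2|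
  · exact hbad (hcov j k hk2 hk5 hb)
  by_cases hb' : h ≤ |((oc (v - k') (T^[k'] (x + j')) : ℕ) : ℝ) - ((v - k' : ℕ) : ℝ) / 2|
  · exact hbad (hcov j' k' hk2' hk5' hb')
  push Not at hb hb'
  have hkv : k ≤ v := hk2.trans hv
  have hkv' : k' ≤ v := hk2'.trans hv
  have e1 := oc_add k (v - k) (x + (j : ℤ))
  rw [Nat.add_sub_cancel' hkv] at e1
  have e2 := oc_add k' (v - k') (x + (j' : ℤ))
  rw [Nat.add_sub_cancel' hkv'] at e2
  rw [e1, e2]
  rw [abs_lt, Nat.cast_sub hkv] at hb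
  rw [abs_lt, Nat.cast_sub hkv'] at hb'
  push_cast
  have hk2r : (k' : ℝ) ≤ u₂ := by exact_mod_cast hk2'
  have hk1r : (u₁ : ℝ) ≤ k := by exact_mod_cast hk1.le
  have h1 : kap * (k' : ℝ) ≤ kap * u₂ := mul_le_mul_of_nonneg_left hk2r hκ0.le
  have h2 : kap * (u₁ : ℝ) ≤ kap * k := mul_le_mul_of_nonneg_left hk1r hκ0.le
  have h3 : 0 ≤ (v : ℝ) * fd s h u₂ v x := mul_nonneg hv0 hf
  have h4 := hb.1
  have h5 := hb'.2
  have h6 : kap * ((u₂ : ℝ) - u₁) = kap * u₂ - kap * u₁ := by ring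
  linarith

theorem fd_mean {s h : ℝ} {u₂ v : ℕ} (hv : u₂ ≤ v) : EE v (fd s h u₂ v) ≤
    ((u₂ : ℝ) + 1) * (((u₂ : ℝ) + 1) * (((u₂ : ℝ) + 2) * (2 * Real.exp (-(s * h) + s ^ 2 * v / 8)))) := by
  unfold fd
  rw [EE_sum]
  have h1 : ∀ k ∈ range (u₂ + 1), EE v (GG (ph s h (v - k)) (u₂ + 1) v k) ≤
      ((u₂ : ℝ) + 1) * (((u₂ : ℝ) + 2) * (2 * Real.exp (-(s * h) + s ^ 2 * v / 8))) := by
    intro k hk
    rw [mem_range] at hk
    rw [GG_mean _ (u₂ + 1) v k (by omega)]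
    have h2 := bE_ph s h (v - k)
    have h3 : -(s * h) + s ^ 2 * ((v - k : ℕ) : ℝ) / 8 ≤ -(s * h) + s ^ 2 * v / 8 := by
      have h4 : ((v - k : ℕ) : ℝ) ≤ v := by exact_mod_cast Nat.sub_le v k
      have h5 : s ^ 2 * ((v - k : ℕ) : ℝ) ≤ s ^ 2 * v := mul_le_mul_of_nonneg_left h4 (by positivity)
      linarith
    have h7 : bE (v - k) (ph s h (v - k)) ≤ 2 * Real.exp (-(s * h) + s ^ 2 * v / 8) :=
      h2.trans (mul_le_mul_of_nonneg_left (Real.exp_le_exp.2 h3) (by norm_num))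
    have h8 : ((k + 1 : ℕ) : ℝ) ≤ (u₂ : ℝ) + 1 := by exact_mod_cast hk
    have h9 : ((u₂ + 1 + 1 : ℕ) : ℝ) = (u₂ : ℝ) + 2 := by push_cast; ring
    rw [h9]
    have h10 : 0 ≤ bE (v - k) (ph s h (v - k)) := by
      have := Pool.Agent.Q74.AR.bE_mono (v - k) (fun _ => 0) (ph s h (v - k)) (fun m => ph_nonneg s h (v - k) m)
      rwa [Pool.Agent.Q74.AR.bE_const] at this
    gcongr
  refine (Finset.sum_le_sum h1).trans ?_
  rw [Finset.sum_const, card_range, nsmul_eq_mul]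
  push_cast
  exact le_refl _

/-! ### numerical facts -/

theorem log_small (c δ : ℝ) (hc : 0 < c) (hδ : 0 < δ) {t : ℝ} (ht : 1 ≤ t)
    (h : (4 / c + 2) / δ ≤ √t) : 2 * Real.log t / c + 2 ≤ δ * t := by
  have hs : 1 ≤ √t := Real.one_le_sqrt.2 ht
  have ht0 : 0 < t := by linarith
  have h1 : Real.log t ≤ 2 * √t := by
    have h2 : Real.log t = 2 * Real.log (√t) := by
      rw [Real.log_sqrt ht0.le]
      ring
    have h3 := Real.log_le_sub_one_of_pos (show 0 < √t by linarith)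
    linarith
  rw [div_le_iff₀ hδ] at h
  have h2 : 2 * Real.log t / c ≤ 4 / c * √t := by
    rw [div_le_iff₀ hc]
    have : 4 / c * √t * c = 4 * √t := by field_simp
    linarith
  have h3 : δ * t = √t * δ * √t := by
    have := Real.mul_self_sqrt ht0.le
    calc δ * t = δ * (√t * √t) := by rw [this]
      _ = _ := by ring
  rw [h3]
  have h4 : (4 / c + 2) * √t ≤ √t * δ * √t := mul_le_mul_of_nonneg_right h (by positivity)
  linarith

theorem upWin_aux (h1 : S_PotW) (h2 : S_Tree) (h3 : S_MeanPin)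
    (η q : ℝ) (hη0 : 0 < η) (hη1 : η < 1) (hq1 : la η < q) (hq2 : q < 1)
    (ε : ℝ) (hε : 0 < ε) (hε1 : ε ≤ 1 / 2) : ∃ t₀ : ℕ, ∀ t : ℕ, t₀ ≤ t → ∀ L : ℕ, 1 ≤ L →
    ∀ u₁ u₂ : ℕ, u₁ ≤ u₂ → (u₂ : ℝ) ≤ (1 - ε) * t →
    EE t (fun x => ((VW u₁ u₂ L t x).card : ℝ)) ≤
      2 / √Real.pi * (kap * ((u₂ : ℝ) - u₁) / √((t : ℝ) - u₂)) + ε * √t := by
  obtain ⟨hκ0, hκ1⟩ := kap_bd
  have hq0 : 0 < q := by
    have : 0 < la η := by unfold la; positivity
    linarith
  set c : ℝ := -Real.log q with hc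
  have hc0 : 0 < c := by
    have := Real.log_neg hq0 hq2
    linarith
  obtain ⟨K, hK, hPot⟩ := h1 η q hη0 hη1 hq1 hq2
  obtain ⟨Ct, hCt, hTree⟩ := h2 η hη0
  set δ : ℝ := ε ^ 3 / 24 with hδ
  have hδ0 : 0 < δ := by positivity
  have hδ1 : δ ≤ ε / 8 := by
    rw [hδ]
    have h9 : ε ^ 2 ≤ 1 := pow_le_one₀ hε.le (by linarith only [hε1])
    have h10 := mul_le_mul_of_nonneg_left h9 hε.le
    have h11 : ε ^ 3 = ε * ε ^ 2 := by ring
    linarith only [h10, h11, hε]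
  set e₃ : ℝ := ε ^ 2 / 48 with he₃
  have he30 : 0 < e₃ := by positivity
  set e₄ : ℝ := (ε / 6) / (2 * Ct * (1 + 3 * K) / δ + 1) with he₄
  have hden : 0 < 2 * Ct * (1 + 3 * K) / δ + 1 := by positivity
  have he40 : 0 < e₄ := by positivity
  have he41 : e₄ ≤ 1 := by
    rw [he₄, div_le_one hden]
    have : 0 ≤ 2 * Ct * (1 + 3 * K) / δ := by positivity
    linarith
  have he42 : e₄ * (2 * Ct * (1 + 3 * K) / δ) ≤ ε / 6 := by
    have h5 : e₄ * (2 * Ct * (1 + 3 * K) / δ + 1) = ε / 6 := by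
      rw [he₄]
      field_simp
    have : 0 ≤ e₄ := he40.le
    linarith
  obtain ⟨ρ, hρ, r₀, hPin⟩ := h3 e₄ he40
  obtain ⟨t₁, hgrow⟩ := growth hη0 (show 0 < ρ * ε by positivity) (show 0 < 2 * K by positivity)
  obtain ⟨l₁, hsmall⟩ := small (2 * e₃ ^ 2) 8 1 (by positivity) one_pos 4
  obtain ⟨t₂, ht₂⟩ := exists_nat_ge l₁
  obtain ⟨t₃, ht₃⟩ := exists_nat_ge (2 * r₀ / ε)
  obtain ⟨N₁, hN₁⟩ := exists_nat_ge (max ((4 / c + 2) / δ) (max ((16 / ε + 12) / ε) (2 / δ + 1)))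
  refine ⟨max (N₁ ^ 2) (max t₁ (max t₂ (max t₃ 1))), fun t ht L hL u₁ u₂ hu hu2 => ?_⟩
  have a1 : N₁ ^ 2 ≤ t := (le_max_left _ _).trans ht
  have a2 : t₁ ≤ t := ((le_max_left _ _).trans (le_max_right _ _)).trans ht
  have a3 : t₂ ≤ t := ((le_max_left _ _).trans ((le_max_right _ _).trans (le_max_right _ _))).trans ht
  have a4 : t₃ ≤ t := ((le_max_left _ _).trans ((le_max_right _ _).trans
    ((le_max_right _ _).trans (le_max_right _ _)))).trans ht
  have a5 : 1 ≤ t := ((le_max_right _ _).trans ((le_max_right _ _).trans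
    ((le_max_right _ _).trans (le_max_right _ _)))).trans ht
  have ht1 : (1 : ℝ) ≤ t := by exact_mod_cast a5
  have ht0 : (0 : ℝ) < t := by linarith
  have hst1 : 1 ≤ √(t : ℝ) := Real.one_le_sqrt.2 ht1
  have hst0 : 0 < √(t : ℝ) := by linarith
  have hss : √(t : ℝ) * √(t : ℝ) = t := Real.mul_self_sqrt ht0.le
  have hNt : (N₁ : ℝ) ≤ √t := by
    apply Real.le_sqrt_of_sq_le
    exact_mod_cast a1
  have b1 : (4 / c + 2) / δ ≤ √t := ((le_max_left _ _).trans hN₁).trans hNt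
  have b2 : (16 / ε + 12) / ε ≤ √t :=
    (((le_max_left _ _).trans (le_max_right _ _)).trans hN₁).trans hNt
  have b3 : 2 / δ + 1 ≤ √t := (((le_max_right _ _).trans (le_max_right _ _)).trans hN₁).trans hNt
  have b4 : (l₁ : ℝ) ≤ t := ht₂.trans (by exact_mod_cast a3)
  have b5 : 2 * r₀ / ε ≤ (t : ℝ) := ht₃.trans (by exact_mod_cast a4)
  have hlog0 : 0 ≤ Real.log t := Real.log_nonneg ht1
  have hlogs := log_small c δ hc0 hδ0 ht1 b1
  have hδt : 2 ≤ δ * t := by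
    have : 0 ≤ 2 * Real.log t / c := by positivity
    linarith
  -- the times
  set m₀ : ℕ := ⌈2 * Real.log t / c⌉₊ with hm₀
  set w : ℕ := ⌊δ * t⌋₊ with hw
  have hm1 : 2 * Real.log t / c ≤ m₀ := Nat.le_ceil _
  have hm2 : (m₀ : ℝ) ≤ δ * t := by
    have := (Nat.ceil_lt_add_one (show 0 ≤ 2 * Real.log t / c by positivity)).le
    linarith
  have hw1 : (w : ℝ) ≤ δ * t := Nat.floor_le (by positivity)
  have hw2 : δ * t / 2 ≤ w := by
    have := Nat.lt_floor_add_one (δ * (t : ℝ))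
    linarith
  have hw0 : (0 : ℝ) < w := by linarith
  have hw0' : 1 ≤ w := by exact_mod_cast (Nat.cast_pos.1 hw0)
  set s : ℕ := u₂ + m₀ with hs
  set v : ℕ := s + w with hv
  have hεt : 0 < ε * t := mul_pos hε ht0
  have hu2t : (u₂ : ℝ) ≤ t := by linarith only [hu2, hεt]
  have hvr : (v : ℝ) = u₂ + m₀ + w := by
    rw [hv, hs]
    push_cast
    ring
  have hv1 : (v : ℝ) ≤ u₂ + 2 * δ * t := by rw [hvr]; linarith
  have hδε : 2 * δ * t ≤ ε / 4 * t := mul_le_mul_of_nonneg_right (by linarith) ht0.le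
  have hvt : v ≤ t := by
    have : (v : ℝ) ≤ t := by linarith only [hv1, hδε, hu2, hεt]
    exact_mod_cast this
  obtain ⟨r, hr⟩ := Nat.exists_eq_add_of_le hvt
  have hrr : (r : ℝ) = t - v := by
    rw [hr]
    push_cast
    ring
  have hr1 : ε / 2 * t ≤ r := by rw [hrr]; linarith only [hv1, hδε, hu2, hεt]
  have hr0 : (0 : ℝ) < r := lt_of_lt_of_le (by positivity) hr1
  have hsr0 : 0 < √(r : ℝ) := Real.sqrt_pos.2 hr0
  have hr₀ : r₀ ≤ r := by
    have h5 : (r₀ : ℝ) ≤ ε / 2 * t := by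
      rw [div_le_iff₀ hε] at b5
      linarith
    exact_mod_cast h5.trans hr1
  set A : ℝ := (t : ℝ) - u₂ with hA
  have hA1 : ε * t ≤ A := by rw [hA]; linarith
  have hA0 : 0 < A := lt_of_lt_of_le (by positivity) hA1
  have hAr : A - r ≤ 2 * δ * t := by rw [hA, hrr]; linarith
  have hrA : (r : ℝ) ≤ A := by
    rw [hA, hrr, hvr]
    have : (0 : ℝ) ≤ m₀ := Nat.cast_nonneg _
    linarith
  have hsA0 : 0 < √A := Real.sqrt_pos.2 hA0
  -- `√r ≥ (ε/2) √t`
  have hsr1 : ε / 2 * √t ≤ √r := by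
    apply Real.le_sqrt_of_sq_le
    rw [mul_pow, Real.sq_sqrt ht0.le]
    have : (ε / 2) ^ 2 * t ≤ ε / 2 * t := by
      apply mul_le_mul_of_nonneg_right _ ht0.le
      have h9 := mul_le_mul_of_nonneg_left (show ε / 2 ≤ 1 by linarith only [hε1])
        (show 0 ≤ ε / 2 by linarith only [hε])
      linarith only [h9]
    linarith
  have hsr2 : 1 / √r ≤ 2 / (ε * √t) := by
    rw [div_le_div_iff₀ hsr0 (by positivity)]
    linarith
  have hsw : δ / 2 * √t ≤ √w := by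
    apply Real.le_sqrt_of_sq_le
    rw [mul_pow, Real.sq_sqrt ht0.le]
    have : (δ / 2) ^ 2 * t ≤ δ / 2 * t := by
      apply mul_le_mul_of_nonneg_right _ ht0.le
      have h9 := mul_le_mul_of_nonneg_left (show δ / 2 ≤ 1 by linarith only [hδ1, hε1])
        (show 0 ≤ δ / 2 by linarith only [hδ0])
      linarith only [h9]
    linarith
  have hsw0 : 0 < √(w : ℝ) := Real.sqrt_pos.2 hw0
  -- the potential
  have hqm : ∀ m : ℕ, m₀ ≤ m → q ^ m * (1 + (u₂ : ℝ)) ^ 2 ≤ 1 := by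
    intro m hm
    have h5 : q ^ m ≤ q ^ m₀ := pow_le_pow_of_le_one hq0.le hq2.le hm
    have h6 : q ^ m₀ ≤ 1 / (t : ℝ) ^ 2 := by
      rw [← Real.rpow_natCast q, Real.rpow_def_of_pos hq0]
      rw [div_le_iff₀ hc0] at hm1
      have h7 : Real.log q * m₀ ≤ -(2 * Real.log t) := by
        have : Real.log q = -c := by rw [hc]; ring
        rw [this]
        linarith
      refine (Real.exp_le_exp.2 h7).trans (le_of_eq ?_)
      rw [Real.exp_neg, two_mul, Real.exp_add, Real.exp_log ht0]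
      rw [one_div, sq]
    have h7 : (1 + (u₂ : ℝ)) ^ 2 ≤ (t : ℝ) ^ 2 := by
      apply pow_le_pow_left₀ (by positivity)
      have : 1 ≤ ε * t := by
        have : δ * t ≤ ε * t := mul_le_mul_of_nonneg_right (by linarith) ht0.le
        linarith
      linarith
    calc q ^ m * (1 + (u₂ : ℝ)) ^ 2 ≤ (1 / (t : ℝ) ^ 2) * (t : ℝ) ^ 2 :=
          mul_le_mul (h5.trans h6) h7 (by positivity) (by positivity)
      _ = 1 := by field_simp
  have hPs : EE s (fun x => QQ η (VW u₁ u₂ L s x) (x / 2 ^ s)) ≤ K * (2 + t) := by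
    refine (hPot L u₁ u₂ s hL hu (by omega)).trans (mul_le_mul_of_nonneg_left ?_ hK.le)
    have h5 := hqm (s - u₂) (by omega)
    have h6 : (s : ℝ) ≤ t := by exact_mod_cast (show s ≤ t by omega)
    linarith
  have hPv : EE v (fun x => QQ η (VW u₁ u₂ L v x) (x / 2 ^ v)) ≤ K * (2 + t) := by
    refine (hPot L u₁ u₂ v hL hu (by omega)).trans (mul_le_mul_of_nonneg_left ?_ hK.le)
    have h5 := hqm (v - u₂) (by omega)
    have h6 : (v : ℝ) ≤ t := by exact_mod_cast hvt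
    linarith
  -- the number of forms at the time `v`
  have hNv : EE v (fun x => ((VW u₁ u₂ L v x).card : ℝ)) ≤ 1 + Ct / √w * ((1 + 3 * K) * t) := by
    have e0 : EE v (fun x => ((VW u₁ u₂ L v x).card : ℝ)) =
        EE s (fun x => EE w (fun N => (((VW u₁ u₂ L s x).image (nx w N)).card : ℝ))) := by
      rw [hv, EE_split]
      congr 1
      funext x
      congr 1
      funext N
      rw [VW_add (by omega)]
    rw [e0]
    have e1 : ∀ x : ℤ, EE w (fun N => (((VW u₁ u₂ L s x).image (nx w N)).card : ℝ)) ≤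
        (1 + Ct / √w * s) + Ct / √w * QQ η (VW u₁ u₂ L s x) (x / 2 ^ s) := by
      intro x
      refine (hTree s (VW u₁ u₂ L s x) ?_ (x / 2 ^ s) w hw0').trans (le_of_eq (by ring))
      intro z hz
      unfold VW at hz
      obtain ⟨j, hj, rfl⟩ := mem_image.1 hz
      rw [nx_fst]
      exact oc_le s _
    refine (EE_mono s e1).trans ?_
    rw [EE_add, EE_const, EE_mul]
    have h6 : (s : ℝ) ≤ t := by exact_mod_cast (show s ≤ t by omega)
    have h7 : 0 ≤ Ct / √w := by positivity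
    have h8 : Ct / √w * s ≤ Ct / √w * t := mul_le_mul_of_nonneg_left h6 h7
    have h9 : Ct / √w * EE s (fun x => QQ η (VW u₁ u₂ L s x) (x / 2 ^ s)) ≤ Ct / √w * (K * (2 + t)) :=
      mul_le_mul_of_nonneg_left hPs h7
    have h10 : Ct / √w * (K * (2 + t)) ≤ Ct / √w * (3 * K * t) := by
      apply mul_le_mul_of_nonneg_left _ h7
      have h13 := mul_le_mul_of_nonneg_left (show 2 + (t : ℝ) ≤ 3 * t by linarith only [ht1]) hK.le
      linarith only [h13]
    have h11 : Ct / √w * ((1 + 3 * K) * t) = Ct / √w * t + Ct / √w * (3 * K * t) := by ring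
    linarith
  -- one residue
  set s₀ : ℝ := 4 * e₃ with hs₀
  set h : ℝ := e₃ * t with hh
  have hh0 : 0 ≤ h := by positivity
  set R : ℤ → ℝ := fun x => kap * ((u₂ : ℝ) - u₁) + 1 + 2 * h + v * fd s₀ h u₂ v x with hR
  have huu : (u₁ : ℝ) ≤ u₂ := by exact_mod_cast hu
  have hX0 : 0 ≤ kap * ((u₂ : ℝ) - u₁) := mul_nonneg hκ0.le (by linarith)
  have hR0 : ∀ x, 0 ≤ R x := by
    intro x
    have := mul_nonneg (Nat.cast_nonneg (α := ℝ) v) (fd_nonneg s₀ h u₂ v x)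
    show 0 ≤ kap * ((u₂ : ℝ) - u₁) + 1 + 2 * h + v * fd s₀ h u₂ v x
    linarith
  set H : ℝ := 2 * K * (1 + t) with hH
  have hH0 : 0 < H := by positivity
  have hone : ∀ x : ℤ, EE r (fun N => ((VW u₁ u₂ L t (2 ^ v * N + x)).card : ℝ)) ≤
      1 + 2 / √Real.pi * (R x / √r) + e₄ * ((VW u₁ u₂ L v x).card : ℝ) +
        1 / H * QQ η (VW u₁ u₂ L v x) (x / 2 ^ v) := by
    intro x
    set V := VW u₁ u₂ L v x with hV
    set p : ℕ × ℤ → Prop := fun z => (1 + |ww (x / 2 ^ v) z|) ^ η ≤ H with hp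
    have h8 : (fun N : ℤ => ((VW u₁ u₂ L t (2 ^ v * N + x)).card : ℝ)) =
        fun N => ((V.image (nx r N)).card : ℝ) := by
      funext N
      rw [hr, VW_add (by omega)]
    rw [h8]
    have h9 : EE r (fun N => ((V.image (nx r N)).card : ℝ)) ≤
        EE r (fun N => (((V.filter p).image (nx r N)).card : ℝ) + ((V.filter fun z => ¬ p z).card : ℝ)) :=
      EE_mono r fun N => card_split V p (nx r N)
    rw [EE_add, EE_const] at h9
    have h10 := hPin r hr₀ (V.filter p) (by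
      intro z hz z' hz' hle
      refine (offsets' (V := V.filter p) (θ := x / 2 ^ v) (H := H) hη0 (fun z hz => (mem_filter.1 hz).2)
        z hz z' hz' hle).trans ?_
      refine mul_le_mul_of_nonneg_left ?_ (by positivity)
      refine (hgrow t a2).trans ?_
      apply Real.exp_le_exp.2
      have := mul_le_mul_of_nonneg_left hr1 hρ.le
      linarith) (R x) (hR0 x) (fun z hz z' hz' =>
        VW_range hL hu (by omega) (by positivity) hh0 x z (mem_filter.1 hz).1 z' (mem_filter.1 hz').1)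
    have h11 : e₄ * ((V.filter p).card : ℝ) ≤ e₄ * (V.card : ℝ) := by
      refine mul_le_mul_of_nonneg_left ?_ he40.le
      exact_mod_cast card_le_card (filter_subset _ _)
    have h12 : ((V.filter fun z => ¬ p z).card : ℝ) ≤ 1 / H * QQ η V (x / 2 ^ v) := by
      have := card_far V (x / 2 ^ v) η hH0.le
      rw [one_div, ← div_eq_inv_mul, le_div_iff₀ hH0, mul_comm]
      exact this
    linarith
  have hmain : EE t (fun x => ((VW u₁ u₂ L t x).card : ℝ)) ≤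
      1 + 2 / √Real.pi * (EE v R / √r) + e₄ * EE v (fun x => ((VW u₁ u₂ L v x).card : ℝ)) +
        1 / H * EE v (fun x => QQ η (VW u₁ u₂ L v x) (x / 2 ^ v)) := by
    conv_lhs => rw [hr, EE_split]
    have h8 : EE v (fun x => EE r (fun x' => ((VW u₁ u₂ L (v + r) (2 ^ v * x' + x)).card : ℝ))) ≤
        EE v (fun x => 1 + 2 / √Real.pi * (R x / √r) + e₄ * ((VW u₁ u₂ L v x).card : ℝ) +
        1 / H * QQ η (VW u₁ u₂ L v x) (x / 2 ^ v)) := by
      refine EE_mono v fun x => ?_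
      rw [← hr]
      exact hone x
    refine h8.trans (le_of_eq ?_)
    have h9 : EE v (fun n : ℤ => R n / √(r : ℝ)) = EE v R / √(r : ℝ) := by
      have h10 : (fun n : ℤ => R n / √(r : ℝ)) = fun n => (1 / √(r : ℝ)) * R n := by
        funext n
        ring
      rw [h10, EE_mul]
      ring
    rw [EE_add, EE_add, EE_add, EE_mul, EE_mul, EE_mul, EE_const, h9]
  -- the mean of the range
  have hvt' : (v : ℝ) ≤ t := by exact_mod_cast hvt
  have hER : EE v R ≤ kap * ((u₂ : ℝ) - u₁) + 2 + 2 * h := by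
    have h8 : EE v R = kap * ((u₂ : ℝ) - u₁) + 1 + 2 * h + v * EE v (fd s₀ h u₂ v) := by
      rw [hR, EE_add, EE_mul, EE_const]
    rw [h8]
    have h9 := fd_mean (s := s₀) (h := h) (u₂ := u₂) (v := v) (by omega)
    have h10 : -(s₀ * h) + s₀ ^ 2 * v / 8 ≤ -(2 * e₃ ^ 2 * t) := by
      rw [hs₀, hh]
      have : e₃ ^ 2 * (v : ℝ) ≤ e₃ ^ 2 * t := mul_le_mul_of_nonneg_left hvt' (by positivity)
      linarith only [this]
    have h11 := hsmall t b4
    have hfn : 0 ≤ EE v (fd s₀ h u₂ v) := EE_nonneg v (fd_nonneg s₀ h u₂ v)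
    have h13 : EE v (fd s₀ h u₂ v) ≤
        ((t : ℝ) + 1) * (((t : ℝ) + 1) * (2 * ((t : ℝ) + 1) * (2 * Real.exp (-(2 * e₃ ^ 2 * t))))) := by
      refine h9.trans ?_
      have g1 : (u₂ : ℝ) + 1 ≤ (t : ℝ) + 1 := by linarith
      have g2 : (u₂ : ℝ) + 2 ≤ 2 * ((t : ℝ) + 1) := by linarith
      have g3 := Real.exp_le_exp.2 h10
      gcongr
    have h12 : (v : ℝ) * EE v (fd s₀ h u₂ v) ≤ 1 := by
      calc (v : ℝ) * EE v (fd s₀ h u₂ v) ≤ ((t : ℝ) + 1) *
            (((t : ℝ) + 1) * (((t : ℝ) + 1) * (2 * ((t : ℝ) + 1) *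
              (2 * Real.exp (-(2 * e₃ ^ 2 * t)))))) := by
            refine mul_le_mul (by linarith) h13 hfn (by positivity)
        _ = (8 * ((t : ℝ) + 1) ^ 4 * Real.exp (-(2 * e₃ ^ 2 * t))) / 2 := by ring
        _ ≤ 1 := by linarith
    linarith
  -- assembly
  have hpi : 2 / √Real.pi ≤ 2 := by
    rw [div_le_iff₀ (Real.sqrt_pos.2 Real.pi_pos)]
    have h8 : 1 ≤ √Real.pi := Real.one_le_sqrt.2 (by linarith [Real.pi_gt_three])
    linarith
  have hpi0 : 0 ≤ 2 / √Real.pi := by positivity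
  set X : ℝ := kap * ((u₂ : ℝ) - u₁) with hX
  have hXt : X ≤ t / 2 := by
    have g1 : (0 : ℝ) ≤ u₁ := Nat.cast_nonneg u₁
    have g2 : (u₂ : ℝ) - u₁ ≤ t := by linarith
    have g3 : X ≤ 1 / 2 * ((u₂ : ℝ) - u₁) := mul_le_mul_of_nonneg_right hκ1 (by linarith)
    linarith
  have k1 : √A - √r ≤ 2 * δ * t / √A := by
    rw [le_div_iff₀ hsA0]
    have g1 : √A * √A = A := Real.mul_self_sqrt hA0.le
    have g2 : √r * √r = (r : ℝ) := Real.mul_self_sqrt hr0.le
    have g3 : √(r : ℝ) ≤ √A := Real.sqrt_le_sqrt hrA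
    have g4 : √(r : ℝ) * √r ≤ √r * √A := mul_le_mul_of_nonneg_left g3 hsr0.le
    linarith
  have k2 : X / √r ≤ X / √A + ε / 12 * √t := by
    have g0 : X / √r = X / √A + X * (√A - √r) / (√A * √r) := by
      field_simp
      ring
    have g1 : X * (√A - √r) ≤ t / 2 * (2 * δ * t / √A) := by
      have g3 : √(r : ℝ) ≤ √A := Real.sqrt_le_sqrt hrA
      exact mul_le_mul hXt k1 (by linarith) (by positivity)
    have g2 : X * (√A - √r) / (√A * √r) ≤ t / 2 * (2 * δ * t / √A) / (√A * √r) :=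
      div_le_div_of_nonneg_right g1 (by positivity)
    have g3 : (t : ℝ) / 2 * (2 * δ * t / √A) / (√A * √r) = δ * t * t / A * (1 / √r) := by
      have g4 : √A * √A = A := Real.mul_self_sqrt hA0.le
      conv_rhs => rw [← g4]
      field_simp
    have g5 : δ * t * t / A ≤ δ * t / ε := by
      rw [div_le_div_iff₀ hA0 hε]
      have : δ * t * (ε * t) ≤ δ * t * A := mul_le_mul_of_nonneg_left hA1 (by positivity)
      linarith
    have g6 : δ * t * t / A * (1 / √r) ≤ δ * t / ε * (2 / (ε * √t)) :=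
      mul_le_mul g5 hsr2 (by positivity) (by positivity)
    have g7 : δ * t / ε * (2 / (ε * √t)) = ε / 12 * √t := by
      rw [hδ]
      nth_rewrite 1 [← hss]
      field_simp
      ring
    rw [g0]
    linarith
  have k3 : (2 + 2 * h) / √r ≤ 4 / ε + ε / 12 * √t := by
    have g1 : (2 + 2 * h) / √r = (2 + 2 * h) * (1 / √r) := by ring
    have g2 : (2 + 2 * h) * (1 / √r) ≤ (2 + 2 * h) * (2 / (ε * √t)) :=
      mul_le_mul_of_nonneg_left hsr2 (by positivity)
    have g3 : (2 + 2 * h) * (2 / (ε * √t)) = 4 / (ε * √t) + ε / 12 * √t := by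
      rw [hh, he₃]
      nth_rewrite 1 [← hss]
      field_simp
      ring
    have g4 : 4 / (ε * √t) ≤ 4 / ε := by
      apply div_le_div_of_nonneg_left (by norm_num) hε
      have := mul_le_mul_of_nonneg_left hst1 hε.le
      linarith
    linarith
  have k4 : EE v R / √r ≤ X / √A + 4 / ε + ε / 6 * √t := by
    have g1 : EE v R / √r ≤ (X + (2 + 2 * h)) / √r :=
      div_le_div_of_nonneg_right (by linarith) hsr0.le
    rw [add_div] at g1
    linarith
  have k5 : 2 / √Real.pi * (EE v R / √r) ≤ 2 / √Real.pi * (X / √A) + 8 / ε + ε / 3 * √t := by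
    have g1 : 2 / √Real.pi * (EE v R / √r) ≤ 2 / √Real.pi * (X / √A + (4 / ε + ε / 6 * √t)) :=
      mul_le_mul_of_nonneg_left (by linarith) hpi0
    have g2 : 2 / √Real.pi * (4 / ε + ε / 6 * √t) ≤ 2 * (4 / ε + ε / 6 * √t) :=
      mul_le_mul_of_nonneg_right hpi (by positivity)
    have g3 : 2 * (4 / ε + ε / 6 * √t) = 8 / ε + ε / 3 * √t := by ring
    linarith
  have k6 : e₄ * EE v (fun x => ((VW u₁ u₂ L v x).card : ℝ)) ≤ 1 + ε / 6 * √t := by
    have g1 := mul_le_mul_of_nonneg_left hNv he40.le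
    have g2 : t / √w ≤ 2 / δ * √t := by
      rw [div_le_iff₀ hsw0]
      have : 2 / δ * √t * (δ / 2 * √t) ≤ 2 / δ * √t * √w := mul_le_mul_of_nonneg_left hsw (by positivity)
      have g3 : 2 / δ * √t * (δ / 2 * √t) = √t * √t := by
        field_simp
      rw [g3, hss] at this
      exact this
    have g3 : Ct / √w * ((1 + 3 * K) * t) = Ct * (1 + 3 * K) * (t / √w) := by ring
    have g4 : Ct * (1 + 3 * K) * (t / √w) ≤ Ct * (1 + 3 * K) * (2 / δ * √t) :=
      mul_le_mul_of_nonneg_left g2 (by positivity)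
    have g5 : e₄ * (Ct * (1 + 3 * K) * (2 / δ * √t)) = e₄ * (2 * Ct * (1 + 3 * K) / δ) * √t := by ring
    have g6 : e₄ * (2 * Ct * (1 + 3 * K) / δ) * √t ≤ ε / 6 * √t :=
      mul_le_mul_of_nonneg_right he42 hst0.le
    have g7 : e₄ * (Ct / √w * ((1 + 3 * K) * t)) ≤ e₄ * (Ct * (1 + 3 * K) * (2 / δ * √t)) := by
      rw [g3]
      exact mul_le_mul_of_nonneg_left g4 he40.le
    linarith
  have k7 : 1 / H * EE v (fun x => QQ η (VW u₁ u₂ L v x) (x / 2 ^ v)) ≤ 1 := by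
    have g1 : 1 / H * EE v (fun x => QQ η (VW u₁ u₂ L v x) (x / 2 ^ v)) ≤ 1 / H * (K * (2 + t)) :=
      mul_le_mul_of_nonneg_left hPv (by positivity)
    have g2 : 1 / H * (K * (2 + t)) ≤ 1 := by
      rw [one_div, inv_mul_le_iff₀ hH0, hH]
      have g3 := mul_nonneg hK.le ht0.le
      linarith only [g3]
    linarith
  have k8 : 3 + 8 / ε ≤ ε / 2 * √t := by
    rw [div_le_iff₀ hε] at b2
    have : 16 / ε = 2 * (8 / ε) := by ring
    linarith only [b2, this]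
  linarith only [hmain, k5, k6, k7, k8]

/-- **JOB UpWin** -/
theorem upWin (h0 : S_Kap) (h1 : S_PotW) (h2 : S_Tree) (h3 : S_MeanPin) : S_UpWin := by
  intro ε hε
  obtain ⟨γ, hγ, -⟩ := exists_IsG
  obtain ⟨η, q, hη0, hη1, hq1, hq2, _⟩ := h0 γ hγ 1 one_pos
  obtain ⟨t₀, ht₀⟩ := upWin_aux h1 h2 h3 η q hη0 hη1 hq1 hq2 (min ε (1 / 2))
    (lt_min hε (by norm_num)) (min_le_right _ _)
  refine ⟨t₀, fun t ht L hL _ u₁ u₂ hu hu2 => ?_⟩
  have h5 : (u₂ : ℝ) ≤ (1 - min ε (1 / 2)) * t := by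
    refine hu2.trans (mul_le_mul_of_nonneg_right ?_ (Nat.cast_nonneg t))
    have := min_le_left ε (1 / 2)
    linarith
  have h6 := ht₀ t ht L hL u₁ u₂ hu h5
  have h7 : min ε (1 / 2) * √t ≤ ε * √t := mul_le_mul_of_nonneg_right (min_le_left _ _) (Real.sqrt_nonneg _)
  linarith

end Pool.Agent.Q137.BT
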